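import Pool.Agent.SharpV.Walk
import Pool.Agent.FewFacets.LowerMain

/-!
# The lower bound by iterated truncation
-/

open scoped ENNReal Topology
open Matrix Finset Filter Pool.Agent.Hhelper78.RandomEdge Pool.Agent.FewFacets

namespace Pool.Agent.SharpV

variable {d n : ℕ}

/-- **One truncation** adds `H_d - 1` steps, one facet and at most `d - 1` vertices. -/
theorem trunc_step (L : LPInstance d n) (hd : 2 ≤ d)
    (hne : (outV L ⟨L.v₀, L.start⟩).Nonempty) :
    ∃ L' : LPInstance d (n + 1), (outV L' ⟨L'.v₀, L'.start⟩).Nonempty ∧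
      Fintype.card (Vert L') ≤ Fintype.card (Vert L) + (d - 1) ∧
      L.expectedSteps + ENNReal.ofReal (hm d - 1) ≤ L'.expectedSteps := by
  classical
  have : NeZero d := ⟨by omega⟩
  obtain ⟨s, hs⟩ := exists_top L
  set v₀ : Vert L := ⟨L.v₀, L.start⟩ with hv₀def
  have hv₀ : v₀ ≠ s := by
    rintro h
    rw [h, hs] at hne
    exact Finset.not_nonempty_empty hne
  let eq := Finset.equivFinOfCardEq (L.simple _ s.2)
  let f : Fin n → Fin d := fun i => if h : i ∈ tight L.A L.b s.1 then eq ⟨i, h⟩ else 0
  have hf : Set.InjOn f (tight L.A L.b s.1 : Set (Fin n)) := by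
    intro i hi j hj h
    have hi' : i ∈ tight L.A L.b s.1 := hi
    have hj' : j ∈ tight L.A L.b s.1 := hj
    simp only [f, dif_pos hi', dif_pos hj'] at h
    exact congrArg Subtype.val (eq.injective h)
  let r : Fin d → Fin n → ℕ := fun t i => (f i + t).val
  have htr : ∀ t, ∃ ε, Tr L s (r t) ε := by
    intro t
    apply exists_tr hd hs
    · intro i hi j hj h
      apply hf hi hj
      have h1 : f i + t = f j + t := Fin.ext h
      exact add_right_cancel h1
    · intro i _
      exact (f i + t).isLt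
  choose ε hT using htr
  obtain ⟨e, he1, he2, he3, he4⟩ := exists_exact L
  let K : Fin d → Vert L → Fin n → ℝ := fun t v g =>
    1 + if nbV L v g = s then hm (r t (ixV L v g)) else 0
  have hK : ∀ t v g, 0 ≤ K t v g := by
    intro t v g
    simp only [K]
    split_ifs
    · have := hm_nonneg (r t (ixV L v g))
      linarith
    · norm_num
  choose φ hφ1 hφ2 using fun t => exists_sol L (K t)
  set C : ℝ := ∑ k ∈ Finset.range d, hm k with hC
  have hsum : ∀ i : Fin n, ∑ t : Fin d, hm (r t i) = C := by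
    intro i
    have h1 := Equiv.sum_comp (Equiv.addLeft (f i)) (fun k : Fin d => hm k.val)
    rw [hC, ← Fin.sum_univ_eq_sum_range, ← h1]
    rfl
  have hP : ∀ v : Vert L, v ≠ s → ∑ t : Fin d, φ t v = d * e v + C := by
    refine vert_induction L fun v ih hv => ?_
    have hne' := out_nonempty L hs hv
    have hc : (0 : ℝ) < (outV L v).card := by exact_mod_cast Finset.card_pos.mpr hne'
    have h1 : (outV L v).card * ∑ t : Fin d, φ t v =
        ∑ g ∈ outV L v, ∑ t : Fin d, (K t v g + φ t (nbV L v g)) := by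
      rw [Finset.mul_sum, Finset.sum_comm]
      exact Finset.sum_congr rfl fun t _ => hφ2 t v
    have h2 : ∀ g ∈ outV L v, ∑ t : Fin d, (K t v g + φ t (nbV L v g)) =
        d * (1 + e (nbV L v g)) + C := by
      intro g hg
      rw [Finset.sum_add_distrib]
      by_cases hn : nbV L v g = s
      · have h3 : ∀ t : Fin d, K t v g = 1 + hm (r t (ixV L v g)) := by
          intro t
          simp only [K, if_pos hn]
        rw [hn]
        simp only [h3, hφ1 _ s hs, he1 s hs]
        rw [Finset.sum_add_distrib, hsum, Finset.sum_const, Finset.sum_const_zero, Finset.card_univ,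
          Fintype.card_fin, nsmul_eq_mul]
        ring
      · have h3 : ∀ t : Fin d, K t v g = 1 := by
          intro t
          simp only [K, if_neg hn, add_zero]
        rw [ih g hg hn]
        simp only [h3]
        rw [Finset.sum_const, Finset.card_univ, Fintype.card_fin, nsmul_eq_mul]
        ring
    rw [Finset.sum_congr rfl h2, Finset.sum_add_distrib, ← Finset.mul_sum, ← he3 v,
      Finset.sum_const, nsmul_eq_mul] at h1
    have h4 : ((outV L v).card : ℝ) * ∑ t : Fin d, φ t v =
        (outV L v).card * (d * e v + C) := by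
      rw [h1]; ring
    exact mul_left_cancel₀ hc.ne' h4
  have hdpos : (0 : ℝ) < d := by exact_mod_cast (by omega : 0 < d)
  obtain ⟨t, -, ht⟩ := Finset.exists_le_of_sum_le (s := (univ : Finset (Fin d)))
    (f := fun _ => e v₀ + (hm d - 1)) (g := fun t => φ t v₀) ⟨0, Finset.mem_univ _⟩ (by
      rw [hP v₀ hv₀, Finset.sum_const, Finset.card_univ, Fintype.card_fin, nsmul_eq_mul]
      have h5 := mul_hm d
      rw [← hC] at h5
      nlinarith)
  refine ⟨(hT t).inst v₀ hv₀, ?_, (hT t).card_le v₀ hv₀, ?_⟩
  · have h6 : (⟨((hT t).inst v₀ hv₀).v₀, ((hT t).inst v₀ hv₀).start⟩ : Vert ((hT t).inst v₀ hv₀)) =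
        (hT t).oldV v₀ hv₀ v₀ hv₀ := rfl
    rw [h6, (hT t).out_old v₀ hv₀ hv₀, Finset.map_nonempty]
    exact hne
  · have h7 := (hT t).le_steps v₀ hv₀ (g := φ t) (hφ2 t)
      (sol_nonneg L (hK t) (hφ1 t) (hφ2 t)) (hφ1 t s hs)
    refine le_trans ?_ h7
    have hmd : 0 ≤ hm d - 1 := by
      have h8 : ∀ k : ℕ, 1 ≤ hm (k + 1) := by
        intro k
        induction k with
        | zero => rw [hm_succ, hm_zero]; norm_num
        | succ k ih => rw [hm_succ]; have : (0:ℝ) < (((k + 1 : ℕ) : ℝ) + 1)⁻¹ := by positivity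
                       linarith
      obtain ⟨k, rfl⟩ : ∃ k, d = k + 1 := ⟨d - 1, by omega⟩
      have := h8 k
      linarith
    rw [he4, ← ENNReal.ofReal_add (he2 _) hmd]
    exact ENNReal.ofReal_le_ofReal ht

lemma card_vert_simplex (L : LPInstance d (d + 1)) : Fintype.card (Vert L) ≤ d + 1 := by
  classical
  have h1 : Fintype.card (Vert L) ≤ (Finset.powersetCard 1
      (Finset.univ : Finset (Fin (d + 1)))).card := by
    rw [← Finset.card_univ]
    apply Finset.card_le_card_of_injOn fun v => (tight L.A L.b v.1)ᶜ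
    · intro v _
      rw [Finset.mem_coe, Finset.mem_powersetCard]
      refine ⟨Finset.subset_univ _, ?_⟩
      rw [Finset.card_compl, Fintype.card_fin, L.simple _ v.2]
      omega
    · intro v _ w _ h
      simp only [compl_inj_iff] at h
      exact Subtype.ext (eq_of_tight w.2 (le_of_eq h.symm))
  refine h1.trans ?_
  rw [Finset.card_powersetCard, Finset.card_univ, Fintype.card_fin, Nat.choose_one_right]

lemma half_log_le (hd : 2 ≤ d) : Real.log d / 2 ≤ hm d - 1 := by
  have h1 : ∀ k : ℕ, Real.log ((k : ℝ) + 3) - Real.log 2 ≤ hm (k + 2) - 1 := by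
    intro k
    induction k with
    | zero =>
      rw [hm_succ, hm_succ, hm_zero]
      have h2 : Real.log (3 / 2) ≤ 3 / 2 - 1 := Real.log_le_sub_one_of_pos (by norm_num)
      rw [Real.log_div (by norm_num) (by norm_num)] at h2
      push_cast
      norm_num at h2 ⊢
      linarith
    | succ k ih =>
      rw [hm_succ]
      have h3 : Real.log (((k : ℝ) + 4) / ((k : ℝ) + 3)) ≤ ((k : ℝ) + 4) / ((k : ℝ) + 3) - 1 :=
        Real.log_le_sub_one_of_pos (by positivity)
      rw [Real.log_div (by positivity) (by positivity)] at h3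
      have h4 : ((k : ℝ) + 4) / ((k : ℝ) + 3) - 1 = ((k : ℝ) + 3)⁻¹ := by
        field_simp
        ring
      rw [h4] at h3
      push_cast
      have e1 : (k : ℝ) + 1 + 3 = k + 4 := by ring
      have e2 : (k : ℝ) + 2 + 1 = k + 3 := by ring
      rw [e1, e2]
      linarith
  obtain ⟨k, rfl⟩ : ∃ k, d = k + 2 := ⟨d - 2, by omega⟩
  refine le_trans ?_ (h1 k)
  have hk : (0 : ℝ) ≤ k := by positivity
  have h5 : Real.log (((k + 2 : ℕ) : ℝ)) ≤ 2 * (Real.log ((k : ℝ) + 3) - Real.log 2) := by
    rw [← Real.log_div (by positivity) (by norm_num)]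
    have h6 : (2 : ℝ) * Real.log (((k : ℝ) + 3) / 2) = Real.log ((((k : ℝ) + 3) / 2) ^ 2) := by
      rw [Real.log_pow]; push_cast; ring
    rw [h6]
    apply Real.log_le_log (by positivity)
    push_cast
    nlinarith [sq_nonneg ((k : ℝ) + 1)]
  linarith

/-- **Iterated truncation of a simplex.** -/
theorem chain (hd : 2 ≤ d) (m : ℕ) : ∃ L : LPInstance d (d + 1 + m),
    (outV L ⟨L.v₀, L.start⟩).Nonempty ∧ Fintype.card (Vert L) ≤ d + 1 + m * (d - 1) ∧
      ENNReal.ofReal ((1 + (m : ℝ) / 2) * Real.log d) ≤ L.expectedSteps := by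
  have hlog : 0 < Real.log d := Real.log_pos (by exact_mod_cast (by omega : 1 < d))
  induction m with
  | zero =>
    have h := base d (by omega)
    rw [Nat.zero_add, Nat.zero_add] at h
    obtain ⟨L, hL⟩ := h
    refine ⟨L, ?_, ?_, ?_⟩
    · rw [Finset.nonempty_iff_ne_empty]
      intro h0
      obtain ⟨e, he1, -, -, he4⟩ := exists_exact L
      rw [he4, he1 _ h0, ENNReal.ofReal_zero] at hL
      have h1 : ENNReal.ofReal (Real.log d) = 0 := nonpos_iff_eq_zero.mp hL
      rw [ENNReal.ofReal_eq_zero] at h1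
      linarith
    · exact (card_vert_simplex L).trans (by omega)
    · simpa using hL
  | succ m ih =>
    obtain ⟨L, h1, h2, h3⟩ := ih
    obtain ⟨L', h1', h2', h3'⟩ := trunc_step L hd h1
    refine ⟨L', h1', ?_, ?_⟩
    · refine h2'.trans ?_
      rw [Nat.succ_mul]
      omega
    · refine le_trans ?_ h3'
      refine le_trans ?_ (add_le_add_left h3 _)
      have h4 := half_log_le hd
      have h5 : 0 ≤ Real.log d / 2 := by positivity
      rw [← ENNReal.ofReal_add (by positivity) (h5.trans h4)]
      apply ENNReal.ofReal_le_ofReal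
      push_cast
      linarith

end Pool.Agent.SharpV
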