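import Mathlib

/-!
# Two inequalities for the random-edge walk

`log_rank`: the logarithms of the ranks of a finite set add up to at least `a log a - a`.
`core_ineq`: the inequality behind the potential function of the upper bound.
`sum_inv_choose`: the identity `∑ C(m, k) / C(d, k) = (d + 1) / (d - m + 1)`.
-/

open Finset

namespace Pool.Agent.SharpV

variable {ι : Type*} [DecidableEq ι]

/-- rank from above -/
noncomputable def rkU (O : Finset ι) (h : ι → ℝ) (i : ι) : ℕ := (O.filter fun k => h i ≤ h k).card

lemma rkU_pos {O : Finset ι} {h : ι → ℝ} {i : ι} (hi : i ∈ O) : 0 < rkU O h i :=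
  Finset.card_pos.mpr ⟨i, Finset.mem_filter.mpr ⟨hi, le_rfl⟩⟩

lemma log_fact_le (O : Finset ι) (h : ι → ℝ) :
    Real.log (O.card.factorial : ℝ) ≤ ∑ i ∈ O, Real.log (rkU O h i) := by
  induction hc : O.card generalizing O with
  | zero =>
    rw [Finset.card_eq_zero] at hc
    subst hc
    simp
  | succ a ih =>
    have hne : O.Nonempty := by
      rw [← Finset.card_pos, hc]; omega
    obtain ⟨m, hm, hmin⟩ := Finset.exists_min_image O h hne
    have hc' : (O.erase m).card = a := by rw [Finset.card_erase_of_mem hm, hc]; omega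
    have h1 := ih (O.erase m) hc'
    rw [← Finset.add_sum_erase O _ hm]
    have h2 : rkU O h m = a + 1 := by
      unfold rkU
      rw [Finset.filter_true_of_mem (fun k hk => hmin k hk), hc]
    rw [h2, Nat.factorial_succ]
    push_cast
    rw [Real.log_mul (by positivity) (by positivity)]
    gcongr
    refine h1.trans (Finset.sum_le_sum fun i hi => ?_)
    apply Real.log_le_log
    · exact_mod_cast rkU_pos hi
    · unfold rkU
      exact_mod_cast Finset.card_le_card (Finset.filter_subset_filter _ (Finset.erase_subset _ _))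

lemma log_rank (O : Finset ι) (h : ι → ℝ) :
    (O.card : ℝ) * Real.log O.card - O.card ≤ ∑ i ∈ O, Real.log (rkU O h i) := by
  refine le_trans ?_ (log_fact_le O h)
  rcases Nat.eq_zero_or_pos O.card with h0 | h0
  · rw [h0]; simp
  have h1 := Real.pow_div_factorial_le_exp (O.card : ℝ) (by positivity) O.card
  have hp : (0 : ℝ) < (O.card : ℝ) := by exact_mod_cast h0
  have h2 : Real.log ((O.card : ℝ) ^ O.card / (O.card.factorial : ℝ)) ≤ O.card := by
    have := Real.log_le_log (by positivity) h1
    rwa [Real.log_exp] at this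
  rw [Real.log_div (by positivity) (by positivity), Real.log_pow] at h2
  linarith

/-- The inequality behind the potential function. -/
lemma core_ineq (O : Finset ι) (h : ι → ℝ) (b : ι → ℝ) (hb : ∀ i ∈ O, 0 < b i) :
    (O.card : ℝ) * (1 + Real.log O.card) ≤
      Real.exp 1 * ∑ i ∈ O, (rkU O h i : ℝ) * (b i)⁻¹ + ∑ i ∈ O, Real.log (b i) := by
  have h1 : ∀ i ∈ O, 2 + Real.log (rkU O h i) ≤
      Real.exp 1 * ((rkU O h i : ℝ) * (b i)⁻¹) + Real.log (b i) := by
    intro i hi
    have hx : (0 : ℝ) < rkU O h i := by exact_mod_cast rkU_pos hi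
    have hbi := hb i hi
    have h2 := Real.log_le_sub_one_of_pos
      (x := Real.exp 1 * ((rkU O h i : ℝ) * (b i)⁻¹)) (by positivity)
    rw [Real.log_mul (by positivity) (by positivity), Real.log_exp,
      Real.log_mul (by positivity) (by positivity), Real.log_inv] at h2
    linarith
  have h3 := Finset.sum_le_sum h1
  rw [Finset.sum_add_distrib, Finset.sum_add_distrib, Finset.sum_const, nsmul_eq_mul,
    ← Finset.mul_sum] at h3
  have h4 := log_rank O h
  linarith

/-- swapping the sums: total weight not above -/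
lemma swap_rank (O : Finset ι) (h : ι → ℝ) (w : ι → ℝ) :
    ∑ k ∈ O, ∑ i ∈ O.filter (fun i => h i ≤ h k), w i = ∑ i ∈ O, (rkU O h i : ℝ) * w i := by
  simp only [Finset.sum_filter]
  rw [Finset.sum_comm]
  refine Finset.sum_congr rfl fun i _ => ?_
  rw [← Finset.sum_filter, Finset.sum_const, nsmul_eq_mul]
  rfl

lemma sum_inv_choose {d m : ℕ} (hm : m ≤ d) :
    ∑ k ∈ Finset.range (m + 1), (m.choose k : ℝ) * ((d.choose k : ℝ))⁻¹ =
      ((d : ℝ) + 1) / ((d : ℝ) - m + 1) := by
  have hdm : (0 : ℝ) < (d : ℝ) - m + 1 := by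
    have : (m : ℝ) ≤ d := by exact_mod_cast hm
    linarith
  have h1 : ∀ k ∈ Finset.range (m + 1), (m.choose k : ℝ) * ((d.choose k : ℝ))⁻¹ =
      ((d - k).choose (d - m) : ℝ) * ((d.choose m : ℝ))⁻¹ := by
    intro k hk
    rw [Finset.mem_range] at hk
    have hkm : k ≤ m := by omega
    have hkd : k ≤ d := by omega
    have p1 : (0 : ℝ) < d.choose k := by exact_mod_cast Nat.choose_pos hkd
    have p2 : (0 : ℝ) < d.choose m := by exact_mod_cast Nat.choose_pos hm
    rw [← div_eq_mul_inv, ← div_eq_mul_inv, div_eq_div_iff p1.ne' p2.ne']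
    have h2 : d.choose m * m.choose k = d.choose k * (d - k).choose (m - k) :=
      Nat.choose_mul hkm
    have h3 : (d - k).choose (d - m) = (d - k).choose (m - k) := by
      rw [← Nat.choose_symm (by omega : m - k ≤ d - k)]
      congr 1
      omega
    rw [h3]
    have h4 : (d.choose m : ℝ) * m.choose k = d.choose k * (d - k).choose (m - k) := by
      exact_mod_cast h2
    linarith
  rw [Finset.sum_congr rfl h1, ← Finset.sum_mul]
  have h5 : ∑ k ∈ Finset.range (m + 1), ((d - k).choose (d - m) : ℝ) =
      ((d + 1).choose (d - m + 1) : ℝ) := by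
    rw [← Nat.sum_Icc_choose]
    push_cast
    have h6 : Finset.Icc (d - m) d = (Finset.range (m + 1)).image (fun k => d - k) := by
      ext x
      rw [Finset.mem_Icc, Finset.mem_image]
      constructor
      · intro hx
        exact ⟨d - x, Finset.mem_range.mpr (by omega), by omega⟩
      · rintro ⟨k, hk, rfl⟩
        rw [Finset.mem_range] at hk
        omega
    rw [h6, Finset.sum_image]
    intro x hx y hy hxy
    simp only [Finset.coe_range, Set.mem_Iio] at hx hy
    simp only at hxy
    omega
  rw [h5]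
  have p2 : (0 : ℝ) < d.choose m := by exact_mod_cast Nat.choose_pos hm
  rw [← div_eq_mul_inv, div_eq_div_iff p2.ne' hdm.ne']
  have h7 : (d + 1) * d.choose (d - m) = (d + 1).choose (d - m + 1) * (d - m + 1) :=
    Nat.add_one_mul_choose_eq d (d - m)
  rw [Nat.choose_symm hm] at h7
  have h8 : ((d : ℝ) + 1) * d.choose m = ((d + 1).choose (d - m + 1) : ℝ) * ((d : ℝ) - m + 1) := by
    have h9 : (((d + 1) * d.choose m : ℕ) : ℝ) =
      (((d + 1).choose (d - m + 1) * (d - m + 1) : ℕ) : ℝ) := by exact_mod_cast h7
    push_cast [Nat.cast_sub hm] at h9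
    exact h9
  linarith

end Pool.Agent.SharpV
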