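import Pool.Agent.FewFacets.ExtB

/-!
# Small steps, interior points and vertices on facets
-/

open scoped ENNReal Topology
open Matrix Finset Filter Pool.Agent.Hhelper78.RandomEdge Pool.Agent.FewFacets

namespace Pool.Agent.SharpV

variable {d n : ℕ}

section General

variable {A : Matrix (Fin n) (Fin d) ℝ} {b : Fin n → ℝ}

lemma small_step (x u : Fin d → ℝ) :
    ∃ δ : ℝ, 0 < δ ∧ ∀ l, A l ⬝ᵥ x < b l → A l ⬝ᵥ (x + δ • u) < b l := by
  have h1 : ∀ l, ∀ᶠ δ in 𝓝[>] (0 : ℝ), A l ⬝ᵥ x < b l → A l ⬝ᵥ (x + δ • u) < b l := by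
    intro l
    by_cases hl : A l ⬝ᵥ x < b l
    · have c1 : ContinuousAt (fun δ : ℝ => A l ⬝ᵥ x + δ * (A l ⬝ᵥ u)) 0 := by fun_prop
      have e1 : ∀ᶠ δ in 𝓝 (0 : ℝ), A l ⬝ᵥ x + δ * (A l ⬝ᵥ u) < b l :=
        c1.eventually_lt continuousAt_const (by simpa using hl)
      filter_upwards [nhdsWithin_le_nhds e1] with δ h _
      rw [dotProduct_add, dotProduct_smul, smul_eq_mul]
      exact h
    · exact Eventually.of_forall fun δ h => absurd h hl
  have h2 := (eventually_all.mpr h1).and (self_mem_nhdsWithin (a := (0 : ℝ)) (s := Set.Ioi 0))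
  obtain ⟨δ, hδ, hpos⟩ := h2.exists
  exact ⟨δ, hpos, hδ⟩

lemma interior_of_strict {x : Fin d → ℝ} (h : ∀ l, A l ⬝ᵥ x < b l) :
    (interior (poly A b)).Nonempty := by
  refine ⟨x, ?_⟩
  rw [mem_interior]
  refine ⟨{y | ∀ l, A l ⬝ᵥ y < b l}, fun y hy l => (hy l).le, ?_, h⟩
  have : {y : Fin d → ℝ | ∀ l, A l ⬝ᵥ y < b l} = ⋂ l, {y | A l ⬝ᵥ y < b l} := by
    ext y; simp
  rw [this]
  apply isOpen_iInter_of_finite
  intro l
  apply isOpen_lt _ continuous_const
  unfold dotProduct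
  fun_prop

lemma adj_symm {P : Set (Fin d → ℝ)} {v w : Fin d → ℝ} (h : Adj P v w) : Adj P w v := by
  obtain ⟨h1, h2, h3, h4⟩ := h
  refine ⟨h2, h1, h3.symm, ?_⟩
  rw [segment_symm]
  exact h4

end General

variable (L : LPInstance d n)

lemma nb_line (v : Vert L) {i : Fin n} (hi : i ∈ tight L.A L.b v.1) :
    ∃ t : ℝ, 0 < t ∧ (nbV L v i).1 = v.1 + t • Ext.dirV L v i := by
  obtain ⟨s, hs, hs'⟩ := on_line v.2 hi (Ext.dir_self L v hi)
    (fun l hl => Ext.dir_ne L v hi (Finset.mem_of_mem_erase hl) (Finset.ne_of_mem_erase hl))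
    (nbV L v i).2.1 (erase_sub_nb L v i hi)
  refine ⟨s, lt_of_le_of_ne hs fun h0 => (nb_spec L v i hi).1 (by rw [hs', ← h0]; simp), hs'⟩

/-- Every facet contains a vertex. -/
lemma exists_vertex_on (j : Fin n) : ∃ v : Vert L, j ∈ tight L.A L.b v.1 := by
  classical
  obtain ⟨v, -, hmax⟩ := Finset.exists_max_image (Finset.univ : Finset (Vert L))
    (fun v => L.A j ⬝ᵥ v.1) ⟨⟨L.v₀, L.start⟩, Finset.mem_univ _⟩
  refine ⟨v, ?_⟩
  by_contra hcon
  have hlt : L.A j ⬝ᵥ v.1 < L.b j :=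
    lt_of_le_of_ne (v.2.1 j) (fun h => hcon (mem_tight.mpr h))
  have hall : ∀ x ∈ poly L.A L.b, L.A j ⬝ᵥ x ≤ L.A j ⬝ᵥ v.1 := by
    intro x hx
    have hcone := cone (x := x) v.2 (Ext.dirV L v) (fun i hi =>
      ⟨Ext.dir_self L v hi, fun l hl =>
        Ext.dir_ne L v hi (Finset.mem_of_mem_erase hl) (Finset.ne_of_mem_erase hl)⟩)
    have h1 : L.A j ⬝ᵥ (x - v.1) = ∑ i ∈ tight L.A L.b v.1,
        (L.b i - L.A i ⬝ᵥ x) * (L.A j ⬝ᵥ Ext.dirV L v i) := by
      rw [hcone, dotProduct_sum]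
      refine Finset.sum_congr rfl fun i _ => ?_
      rw [dotProduct_smul, smul_eq_mul]
    have h2 : L.A j ⬝ᵥ (x - v.1) ≤ 0 := by
      rw [h1]
      refine Finset.sum_nonpos fun i hi =>
        mul_nonpos_of_nonneg_of_nonpos (sub_nonneg.mpr (hx i)) ?_
      obtain ⟨t, ht, ht'⟩ := nb_line L v hi
      have h3 : L.A j ⬝ᵥ (nbV L v i).1 ≤ L.A j ⬝ᵥ v.1 := hmax (nbV L v i) (Finset.mem_univ _)
      rw [ht', dotProduct_add, dotProduct_smul, smul_eq_mul] at h3
      by_contra hc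
      nlinarith [not_le.mp hc]
    rw [dotProduct_sub] at h2
    linarith
  obtain ⟨z, hz1, hz2⟩ := L.irredundant j
  have hden : 0 < L.A j ⬝ᵥ z - L.A j ⬝ᵥ v.1 := by linarith
  set θ := (L.b j - L.A j ⬝ᵥ v.1) / (L.A j ⬝ᵥ z - L.A j ⬝ᵥ v.1) with hθ
  have hθ0 : 0 ≤ θ := div_nonneg (by linarith) hden.le
  have hθ1 : θ ≤ 1 := by rw [hθ, div_le_one hden]; linarith
  have hpj : L.A j ⬝ᵥ (v.1 + θ • (z - v.1)) = L.b j := by
    rw [dotProduct_add, dotProduct_smul, dotProduct_sub, smul_eq_mul, hθ,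
      div_mul_cancel₀ _ hden.ne']
    ring
  have hp : v.1 + θ • (z - v.1) ∈ poly L.A L.b := by
    intro i
    by_cases hij : i = j
    · rw [hij, hpj]
    · rw [dotProduct_add, dotProduct_smul, dotProduct_sub, smul_eq_mul]
      have h3 := hz1 i hij
      have h4 := v.2.1 i
      nlinarith
  have := hall _ hp
  rw [hpj] at this
  linarith

/-- There is an optimal vertex. -/
lemma exists_top : ∃ s : Vert L, outV L s = ∅ := by
  classical
  obtain ⟨s, -, hmax⟩ := Finset.exists_max_image (Finset.univ : Finset (Vert L))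
    (fun v => L.c ⬝ᵥ v.1) ⟨⟨L.v₀, L.start⟩, Finset.mem_univ _⟩
  refine ⟨s, ?_⟩
  rw [Finset.eq_empty_iff_forall_notMem]
  intro i hi
  have h1 := ((mem_outV L).mp hi).2
  have h2 : L.c ⬝ᵥ (nbV L s i).1 ≤ L.c ⬝ᵥ s.1 := hmax (nbV L s i) (Finset.mem_univ _)
  linarith

lemma lt_top {s : Vert L} (hs : outV L s = ∅) {v : Vert L} (hv : v ≠ s) :
    L.c ⬝ᵥ v.1 < L.c ⬝ᵥ s.1 := by
  by_contra hcon
  have := max_face L s v (by rw [hs]; exact Finset.empty_subset _) (not_lt.mp hcon)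
  exact hv this.symm

lemma out_nonempty {s : Vert L} (hs : outV L s = ∅) {v : Vert L} (hv : v ≠ s) :
    (outV L v).Nonempty := by
  rw [Finset.nonempty_iff_ne_empty]
  intro h
  have h1 := lt_top L hs hv
  have h2 := lt_top L h (Ne.symm hv)
  linarith

/-! ### The truncated system of inequalities -/

variable (s : Vert L) (r : Fin n → ℕ) (ε : ℝ)

/-- speed of the objective along the edges at the optimum -/
noncomputable def gam (i : Fin n) : ℝ := -(L.c ⬝ᵥ Ext.dirV L s i)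

/-- coefficients of the new inequality -/
noncomputable def lm (i : Fin n) : ℝ := gam L s i / ((r i : ℝ) + 1)

/-- weighted slack -/
noncomputable def slk (x : Fin d → ℝ) : ℝ :=
  ∑ i ∈ tight L.A L.b s.1, lm L s r i * (L.b i - L.A i ⬝ᵥ x)

/-- the new row -/
noncomputable def ra : Fin d → ℝ := ∑ i ∈ tight L.A L.b s.1, lm L s r i • L.A i

/-- the new right-hand side -/
noncomputable def rb : ℝ := ∑ i ∈ tight L.A L.b s.1, lm L s r i * L.b i - ε

/-- the matrix of the truncated polytope -/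
noncomputable def tA : Matrix (Fin (n + 1)) (Fin d) ℝ :=
  Fin.snoc (α := fun _ => Fin d → ℝ) L.A (ra L s r)

/-- the right-hand side of the truncated polytope -/
noncomputable def tb : Fin (n + 1) → ℝ := Fin.snoc (α := fun _ => ℝ) L.b (rb L s r ε)

/-- the new vertices -/
noncomputable def wp (i : Fin n) : Fin d → ℝ := s.1 + (ε / lm L s r i) • Ext.dirV L s i

lemma tA_cast (i : Fin n) : tA L s r i.castSucc = L.A i := by
  unfold tA
  exact Fin.snoc_castSucc (α := fun _ => Fin d → ℝ) _ _ i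

lemma tA_last : tA L s r (Fin.last n) = ra L s r := by
  unfold tA
  exact Fin.snoc_last (α := fun _ => Fin d → ℝ) _ _

lemma tb_cast (i : Fin n) : tb L s r ε i.castSucc = L.b i := by
  unfold tb
  exact Fin.snoc_castSucc (α := fun _ => ℝ) _ _ i

lemma tb_last : tb L s r ε (Fin.last n) = rb L s r ε := by
  unfold tb
  exact Fin.snoc_last (α := fun _ => ℝ) _ _

lemma ra_dot (x : Fin d → ℝ) : ra L s r ⬝ᵥ x =
    ∑ i ∈ tight L.A L.b s.1, lm L s r i * L.b i - slk L s r x := by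
  unfold ra slk
  rw [sum_dotProduct, ← Finset.sum_sub_distrib]
  refine Finset.sum_congr rfl fun i _ => ?_
  rw [smul_dotProduct, smul_eq_mul]
  ring

lemma mem_tpoly (x : Fin d → ℝ) : x ∈ poly (tA L s r) (tb L s r ε) ↔
    x ∈ poly L.A L.b ∧ ε ≤ slk L s r x := by
  constructor
  · intro h
    refine ⟨fun i => ?_, ?_⟩
    · have := h i.castSucc
      rwa [tA_cast, tb_cast] at this
    · have := h (Fin.last n)
      rw [tA_last, tb_last, ra_dot, rb] at this
      linarith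
  · rintro ⟨h1, h2⟩ i
    induction i using Fin.lastCases with
    | last =>
      rw [tA_last, tb_last, ra_dot, rb]
      linarith
    | cast i =>
      rw [tA_cast, tb_cast]
      exact h1 i

lemma ttight_cast (x : Fin d → ℝ) (i : Fin n) :
    i.castSucc ∈ tight (tA L s r) (tb L s r ε) x ↔ i ∈ tight L.A L.b x := by
  rw [mem_tight, mem_tight, tA_cast, tb_cast]

lemma ttight_last (x : Fin d → ℝ) :
    Fin.last n ∈ tight (tA L s r) (tb L s r ε) x ↔ slk L s r x = ε := by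
  rw [mem_tight, tA_last, tb_last, ra_dot, rb]
  constructor <;> intro h <;> linarith

end Pool.Agent.SharpV
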