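import Pool.Agent.SharpV.Upper

/-!
# Exact solutions of the recursion along improving edges
-/

open scoped ENNReal
open Matrix Finset Pool.Agent.Hhelper78.RandomEdge Pool.Agent.FewFacets

namespace Pool.Agent.SharpV

variable {d n : ℕ} (L : LPInstance d n)

/-- Induction from the optimum downwards. -/
lemma vert_induction {P : Vert L → Prop}
    (h : ∀ v, (∀ g ∈ outV L v, P (nbV L v g)) → P v) : ∀ v, P v := by
  classical
  have key : ∀ k : ℕ, ∀ v : Vert L, Fintype.card (Vert L) - rk L v ≤ k → P v := by
    intro k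
    induction k with
    | zero =>
      intro v hv
      have := rk_lt_card L v
      omega
    | succ k ih =>
      intro v hv
      apply h
      intro g hg
      apply ih
      have := rk_lt L ((mem_outV L).mp hg).2
      have := rk_lt_card L (nbV L v g)
      omega
  exact fun v => key _ v le_rfl

/-- Existence of the solution of the recursion with rewards `K` on the improving edges. -/
theorem exists_sol (K : Vert L → Fin n → ℝ) : ∃ φ : Vert L → ℝ,
    (∀ v, outV L v = ∅ → φ v = 0) ∧
    ∀ v, (outV L v).card * φ v = ∑ g ∈ outV L v, (K v g + φ (nbV L v g)) := by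
  classical
  let R : Vert L → Vert L → Prop := fun w v => ∃ g ∈ outV L v, w = nbV L v g
  have hwf : WellFounded R := by
    refine ⟨vert_induction L fun v ih => Acc.intro v ?_⟩
    rintro w ⟨g, hg, rfl⟩
    exact ih g hg
  let F : (v : Vert L) → ((w : Vert L) → R w v → ℝ) → ℝ := fun v rec =>
    (∑ g ∈ (outV L v).attach, (K v g.1 + rec (nbV L v g.1) ⟨g.1, g.2, rfl⟩)) /
      (outV L v).card
  have hfix : ∀ v, hwf.fix F v = (∑ g ∈ outV L v, (K v g + hwf.fix F (nbV L v g))) /
      (outV L v).card := by
    intro v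
    rw [hwf.fix_eq F v]
    show (∑ g ∈ (outV L v).attach, (K v g.1 + hwf.fix F (nbV L v g.1))) / _ = _
    rw [Finset.sum_attach (outV L v) (fun g => K v g + hwf.fix F (nbV L v g))]
  refine ⟨hwf.fix F, ?_, ?_⟩
  · intro v hv
    rw [hfix, hv]
    simp
  · intro v
    rcases Finset.eq_empty_or_nonempty (outV L v) with he | he
    · rw [he]; simp
    · have hc : (0 : ℝ) < (outV L v).card := by exact_mod_cast Finset.card_pos.mpr he
      rw [hfix v]
      field_simp

lemma sol_nonneg {K : Vert L → Fin n → ℝ} (hK : ∀ v g, 0 ≤ K v g) {φ : Vert L → ℝ}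
    (h1 : ∀ v, outV L v = ∅ → φ v = 0)
    (h2 : ∀ v, (outV L v).card * φ v = ∑ g ∈ outV L v, (K v g + φ (nbV L v g))) :
    ∀ v, 0 ≤ φ v := by
  refine vert_induction L fun v ih => ?_
  rcases Finset.eq_empty_or_nonempty (outV L v) with he | he
  · exact (h1 v he).ge
  · have hc : (0 : ℝ) < (outV L v).card := by exact_mod_cast Finset.card_pos.mpr he
    have h3 : 0 ≤ (outV L v).card * φ v := by
      rw [h2]
      exact Finset.sum_nonneg fun g hg => add_nonneg (hK v g) (ih g hg)
    by_contra hcon
    have := mul_neg_of_pos_of_neg hc (not_le.mp hcon)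
    linarith

/-- The expected number of steps is the value of the exact solution. -/
theorem exists_exact : ∃ e : Vert L → ℝ, (∀ v, outV L v = ∅ → e v = 0) ∧ (∀ v, 0 ≤ e v) ∧
    (∀ v, (outV L v).card * e v = ∑ g ∈ outV L v, (1 + e (nbV L v g))) ∧
    L.expectedSteps = ENNReal.ofReal (e ⟨L.v₀, L.start⟩) := by
  obtain ⟨e, h1, h2⟩ := exists_sol L (fun _ _ => 1)
  have h3 := sol_nonneg L (K := fun _ _ => 1) (fun _ _ => zero_le_one) h1 h2
  refine ⟨e, h1, h3, h2, le_antisymm ?_ ?_⟩
  · apply expectedSteps_le_real L e h3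
    intro v
    rw [h2 v, Finset.sum_add_distrib, Finset.sum_const, nsmul_eq_mul, mul_one]
  · apply le_expectedSteps_real L e h3 h1
    intro v
    rw [h2 v, Finset.sum_add_distrib, Finset.sum_const, nsmul_eq_mul, mul_one]

end Pool.Agent.SharpV
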