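import Pool.Agent.SharpV.Geo

/-!
# Truncation of the optimal vertex of a simple polytope
-/

open scoped ENNReal Topology
open Matrix Finset Filter Pool.Agent.Hhelper78.RandomEdge Pool.Agent.FewFacets

namespace Pool.Agent.SharpV

variable {d n : ℕ}

/-- The data of a truncation of the optimal vertex. -/
structure Tr (L : LPInstance d n) (s : Vert L) (r : Fin n → ℕ) (ε : ℝ) : Prop where
  hd : 2 ≤ d
  top : outV L s = ∅
  inj : Set.InjOn r (tight L.A L.b s.1 : Set (Fin n))
  lt : ∀ i ∈ tight L.A L.b s.1, r i < d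
  eps : 0 < ε
  small : ∀ v : Vert L, v ≠ s → ε < slk L s r v.1

variable {L : LPInstance d n} {s : Vert L} {r : Fin n → ℕ} {ε : ℝ}

lemma gam_pos (hs : outV L s = ∅) {i : Fin n} (hi : i ∈ tight L.A L.b s.1) : 0 < gam L s i := by
  have h := (exists_dirs L s).choose_spec.2.2 i hi (by rw [hs]; exact Finset.notMem_empty i)
  unfold gam
  have h' : L.c ⬝ᵥ Ext.dirV L s i < 0 := h
  linarith

lemma lm_pos (hs : outV L s = ∅) (r : Fin n → ℕ) {i : Fin n} (hi : i ∈ tight L.A L.b s.1) :
    0 < lm L s r i := div_pos (gam_pos hs hi) (by positivity)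

lemma slk_pos (hs : outV L s = ∅) (r : Fin n → ℕ) {v : Vert L} (hv : v ≠ s) :
    0 < slk L s r v.1 := by
  unfold slk
  apply Finset.sum_pos'
  · intro i hi
    exact mul_nonneg (lm_pos hs r hi).le (sub_nonneg.mpr (v.2.1 i))
  · have hnot : ¬ tight L.A L.b s.1 ⊆ tight L.A L.b v.1 := fun hcon =>
      hv (Subtype.ext (eq_of_tight s.2 hcon))
    obtain ⟨i, hi, hi'⟩ := Finset.not_subset.mp hnot
    refine ⟨i, hi, mul_pos (lm_pos hs r hi) (sub_pos.mpr ?_)⟩
    exact lt_of_le_of_ne (v.2.1 i) fun h => hi' (mem_tight.mpr h)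

/-- Truncation data exist. -/
lemma exists_tr (hd : 2 ≤ d) (hs : outV L s = ∅) (r : Fin n → ℕ)
    (hinj : Set.InjOn r (tight L.A L.b s.1 : Set (Fin n)))
    (hlt : ∀ i ∈ tight L.A L.b s.1, r i < d) : ∃ ε, Tr L s r ε := by
  classical
  rcases Finset.eq_empty_or_nonempty ((univ : Finset (Vert L)).erase s) with he | he
  · refine ⟨1, hd, hs, hinj, hlt, one_pos, fun v hv => ?_⟩
    exfalso
    have : v ∈ (univ : Finset (Vert L)).erase s := Finset.mem_erase.mpr ⟨hv, Finset.mem_univ _⟩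
    rw [he] at this
    exact Finset.notMem_empty _ this
  · obtain ⟨v₁, hv₁, hmin⟩ := Finset.exists_min_image _ (fun v : Vert L => slk L s r v.1) he
    have h1 := slk_pos hs r (Finset.ne_of_mem_erase hv₁)
    refine ⟨slk L s r v₁.1 / 2, hd, hs, hinj, hlt, by positivity, fun v hv => ?_⟩
    have h2 : slk L s r v₁.1 ≤ slk L s r v.1 :=
      hmin v (Finset.mem_erase.mpr ⟨hv, Finset.mem_univ _⟩)
    linarith

namespace Tr

variable (hT : Tr L s r ε)

include hT

lemma lmp {i : Fin n} (hi : i ∈ tight L.A L.b s.1) : 0 < lm L s r i := lm_pos hT.top r hi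

lemma slk_nb {i : Fin n} (hi : i ∈ tight L.A L.b s.1) {t : ℝ}
    (ht : (nbV L s i).1 = s.1 + t • Ext.dirV L s i) : slk L s r (nbV L s i).1 = lm L s r i * t := by
  unfold slk
  rw [Finset.sum_eq_single i]
  · rw [ht, dotProduct_add, dotProduct_smul, Ext.dir_self L s hi, smul_eq_mul, mem_tight.mp hi]
    ring
  · intro l hl hli
    have : l ∈ tight L.A L.b (nbV L s i).1 :=
      erase_sub_nb L s i hi (Finset.mem_erase.mpr ⟨hli, hl⟩)
    rw [mem_tight.mp this]
    ring
  · intro h; exact absurd hi h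

/-- the neighbour of the optimum lies beyond the new vertex -/
lemma line {i : Fin n} (hi : i ∈ tight L.A L.b s.1) : ∃ t : ℝ, ε / lm L s r i < t ∧
    (nbV L s i).1 = s.1 + t • Ext.dirV L s i := by
  obtain ⟨t, ht, ht'⟩ := nb_line L s hi
  refine ⟨t, ?_, ht'⟩
  have h1 := hT.small (nbV L s i) (fun h => (nb_spec L s i hi).1 (congrArg Subtype.val h))
  rw [hT.slk_nb hi ht'] at h1
  rw [div_lt_iff₀ (hT.lmp hi)]
  linarith

lemma wp_open {i : Fin n} (hi : i ∈ tight L.A L.b s.1) :
    wp L s r ε i ∈ openSegment ℝ s.1 (nbV L s i).1 := by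
  obtain ⟨t, ht, ht'⟩ := hT.line hi
  rw [ht']
  exact mem_openSegment_ray (div_pos hT.eps (hT.lmp hi)) ht

lemma wp_poly {i : Fin n} (hi : i ∈ tight L.A L.b s.1) : wp L s r ε i ∈ poly L.A L.b :=
  (poly_convex.openSegment_subset s.2.1 (nbV L s i).2.1) (hT.wp_open hi)

lemma wp_tight {i : Fin n} (hi : i ∈ tight L.A L.b s.1) :
    tight L.A L.b (wp L s r ε i) = (tight L.A L.b s.1).erase i := by
  ext l
  constructor
  · intro hl
    have h1 := tight_of_openSegment s.2.1 (nbV L s i).2.1 (hT.wp_open hi) hl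
    rw [Finset.mem_erase]
    refine ⟨?_, h1.1⟩
    rintro rfl
    have h2 := h1.2
    rw [(nb_spec L s l hi).2.2, Finset.mem_insert] at h2
    rcases h2 with h2 | h2
    · exact (nb_spec L s l hi).2.1 (h2 ▸ hi)
    · exact absurd rfl (Finset.mem_erase.mp h2).1
  · intro hl
    have h1 : l ∈ tight L.A L.b (nbV L s i).1 := erase_sub_nb L s i hi hl
    exact tight_segment (openSegment_subset_segment ℝ _ _ (hT.wp_open hi))
      (Finset.mem_of_mem_erase hl) h1

lemma wp_slk {i : Fin n} (hi : i ∈ tight L.A L.b s.1) : slk L s r (wp L s r ε i) = ε := by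
  unfold slk
  rw [Finset.sum_eq_single i]
  · unfold wp
    rw [dotProduct_add, dotProduct_smul, Ext.dir_self L s hi, smul_eq_mul, mem_tight.mp hi]
    have := (hT.lmp hi).ne'
    field_simp
    ring
  · intro l hl hli
    have : l ∈ tight L.A L.b (wp L s r ε i) := by
      rw [hT.wp_tight hi]
      exact Finset.mem_erase.mpr ⟨hli, hl⟩
    rw [mem_tight.mp this]
    ring
  · intro h; exact absurd hi h

lemma wp_c {i : Fin n} (hi : i ∈ tight L.A L.b s.1) :
    L.c ⬝ᵥ wp L s r ε i = L.c ⬝ᵥ s.1 - ε * ((r i : ℝ) + 1) := by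
  unfold wp
  rw [dotProduct_add, dotProduct_smul, smul_eq_mul]
  have h1 : L.c ⬝ᵥ Ext.dirV L s i = -gam L s i := by unfold gam; ring
  rw [h1]
  have h2 := gam_pos hT.top hi
  unfold lm
  field_simp
  ring

lemma nb_lt_wp {i : Fin n} (hi : i ∈ tight L.A L.b s.1) :
    L.c ⬝ᵥ (nbV L s i).1 < L.c ⬝ᵥ wp L s r ε i := by
  obtain ⟨t, ht, ht'⟩ := hT.line hi
  rw [ht']
  unfold wp
  rw [dotProduct_add, dotProduct_add, dotProduct_smul, dotProduct_smul, smul_eq_mul, smul_eq_mul]
  have h1 : L.c ⬝ᵥ Ext.dirV L s i = -gam L s i := by unfold gam; ring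
  rw [h1]
  have h2 := gam_pos hT.top hi
  nlinarith

lemma wp_ne_old {i : Fin n} (hi : i ∈ tight L.A L.b s.1) {v : Vert L} (hv : v ≠ s) :
    wp L s r ε i ≠ v.1 := by
  intro h
  have h1 := hT.small v hv
  rw [← h, hT.wp_slk hi] at h1
  exact lt_irrefl _ h1

lemma wp_inj {i j : Fin n} (hi : i ∈ tight L.A L.b s.1) (hj : j ∈ tight L.A L.b s.1)
    (h : wp L s r ε i = wp L s r ε j) : i = j := by
  by_contra hne
  have h1 : j ∈ tight L.A L.b (wp L s r ε i) := by
    rw [hT.wp_tight hi]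
    exact Finset.mem_erase.mpr ⟨fun h => hne h.symm, hj⟩
  rw [h, hT.wp_tight hj] at h1
  exact absurd rfl (Finset.mem_erase.mp h1).1

/-! ### The vertices of the truncated polytope -/

lemma old_mem {v : Vert L} (hv : v ≠ s) : v.1 ∈ poly (tA L s r) (tb L s r ε) :=
  (mem_tpoly L s r ε v.1).mpr ⟨v.2.1, (hT.small v hv).le⟩

lemma new_mem {i : Fin n} (hi : i ∈ tight L.A L.b s.1) :
    wp L s r ε i ∈ poly (tA L s r) (tb L s r ε) :=
  (mem_tpoly L s r ε _).mpr ⟨hT.wp_poly hi, (hT.wp_slk hi).ge⟩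

lemma tight_old {v : Vert L} (hv : v ≠ s) :
    tight (tA L s r) (tb L s r ε) v.1 = (tight L.A L.b v.1).map Fin.castSuccEmb := by
  ext j
  rw [Finset.mem_map]
  induction j using Fin.lastCases with
  | last =>
    rw [ttight_last]
    constructor
    · intro h
      exact absurd h (hT.small v hv).ne'
    · rintro ⟨i, -, h⟩
      exact absurd h (Fin.castSucc_lt_last i).ne
  | cast i =>
    rw [ttight_cast]
    constructor
    · intro h
      exact ⟨i, h, rfl⟩
    · rintro ⟨i', h, h'⟩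
      have : i' = i := Fin.castSucc_injective n h'
      rwa [← this]

lemma tight_new {i : Fin n} (hi : i ∈ tight L.A L.b s.1) :
    tight (tA L s r) (tb L s r ε) (wp L s r ε i) =
      insert (Fin.last n) (((tight L.A L.b s.1).erase i).map Fin.castSuccEmb) := by
  ext j
  rw [Finset.mem_insert, Finset.mem_map]
  induction j using Fin.lastCases with
  | last =>
    rw [ttight_last]
    exact ⟨fun _ => Or.inl rfl, fun _ => hT.wp_slk hi⟩
  | cast l =>
    rw [ttight_cast, hT.wp_tight hi]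
    constructor
    · intro h
      exact Or.inr ⟨l, h, rfl⟩
    · rintro (h | ⟨l', h, h'⟩)
      · exact absurd h (Fin.castSucc_lt_last l).ne
      · have : l' = l := Fin.castSucc_injective n h'
        rwa [← this]

lemma card_old {v : Vert L} (hv : v ≠ s) : (tight (tA L s r) (tb L s r ε) v.1).card = d := by
  rw [hT.tight_old hv, Finset.card_map, L.simple _ v.2]

lemma card_new {i : Fin n} (hi : i ∈ tight L.A L.b s.1) :
    (tight (tA L s r) (tb L s r ε) (wp L s r ε i)).card = d := by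
  rw [hT.tight_new hi, Finset.card_insert_of_notMem, Finset.card_map,
    Finset.card_erase_of_mem hi, L.simple _ s.2]
  · have := hT.hd
    omega
  · intro h
    rw [Finset.mem_map] at h
    obtain ⟨l, -, h'⟩ := h
    exact absurd h' (Fin.castSucc_lt_last l).ne

lemma old_ext {v : Vert L} (hv : v ≠ s) :
    v.1 ∈ (poly (tA L s r) (tb L s r ε)).extremePoints ℝ := by
  have hsub : poly (tA L s r) (tb L s r ε) ⊆ poly L.A L.b := fun x hx =>
    ((mem_tpoly L s r ε x).mp hx).1
  exact inter_extremePoints_subset_extremePoints_of_subset hsub ⟨hT.old_mem hv, v.2⟩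

lemma new_ext {i : Fin n} (hi : i ∈ tight L.A L.b s.1) :
    wp L s r ε i ∈ (poly (tA L s r) (tb L s r ε)).extremePoints ℝ := by
  apply ker_ext (hT.new_mem hi)
  intro u hu
  have h1 : ∀ l ∈ (tight L.A L.b s.1).erase i, L.A l ⬝ᵥ u = 0 := by
    intro l hl
    have := hu l.castSucc (by rw [ttight_cast, hT.wp_tight hi]; exact hl)
    rwa [tA_cast] at this
  have h2 : ra L s r ⬝ᵥ u = 0 := by
    have := hu (Fin.last n) (by rw [ttight_last]; exact hT.wp_slk hi)
    rwa [tA_last] at this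
  apply ext_ker s.2
  intro l hl
  by_cases hli : l = i
  · subst hli
    unfold ra at h2
    rw [sum_dotProduct, Finset.sum_eq_single l] at h2
    · rw [smul_dotProduct, smul_eq_mul] at h2
      exact (mul_eq_zero.mp h2).resolve_left (hT.lmp hl).ne'
    · intro l' hl' hne
      rw [smul_dotProduct, h1 l' (Finset.mem_erase.mpr ⟨hne, hl'⟩), smul_zero]
    · intro h; exact absurd hl h
  · exact h1 l (Finset.mem_erase.mpr ⟨hli, hl⟩)

/-- an edge of the old polytope which ends at the optimum -/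
lemma nb_top {v : Vert L} {i : Fin n} (hi : i ∈ tight L.A L.b v.1) (h : nbV L v i = s) :
    ixV L v i ∈ tight L.A L.b s.1 ∧
      (tight L.A L.b s.1).erase (ixV L v i) = (tight L.A L.b v.1).erase i ∧
      (v ≠ s → nbV L s (ixV L v i) = v) := by
  have h1 := (nb_spec L v i hi).2
  rw [h] at h1
  have h2 : ixV L v i ∈ tight L.A L.b s.1 := by
    rw [h1.2]; exact Finset.mem_insert_self _ _
  have h3 : (tight L.A L.b s.1).erase (ixV L v i) = (tight L.A L.b v.1).erase i := by
    rw [h1.2, Finset.erase_insert]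
    intro h4
    exact h1.1 (Finset.mem_of_mem_erase h4)
  refine ⟨h2, h3, fun hv => ?_⟩
  apply nb_eq L s v _ h2
  · exact fun h4 => hv (Subtype.ext h4)
  · rw [h3]
    exact Finset.erase_subset _ _

lemma sub_old_ne {v : Vert L} (hv : v ≠ s) {l : Fin n} (hl : l ∈ tight L.A L.b v.1)
    (hn : nbV L v l ≠ s) : (tight (tA L s r) (tb L s r ε) v.1).erase l.castSucc ⊆
      tight (tA L s r) (tb L s r ε) (nbV L v l).1 := by
  rw [hT.tight_old hv, hT.tight_old hn]
  intro a ha
  rw [Finset.mem_erase, Finset.mem_map] at ha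
  obtain ⟨ha1, l', hl', rfl⟩ := ha
  rw [Finset.mem_map]
  exact ⟨l', erase_sub_nb L v l hl
    (Finset.mem_erase.mpr ⟨fun h => ha1 (by rw [h]; rfl), hl'⟩), rfl⟩

lemma sub_old_top {v : Vert L} (hv : v ≠ s) {l : Fin n} (hl : l ∈ tight L.A L.b v.1)
    (hn : nbV L v l = s) : (tight (tA L s r) (tb L s r ε) v.1).erase l.castSucc ⊆
      tight (tA L s r) (tb L s r ε) (wp L s r ε (ixV L v l)) := by
  obtain ⟨h1, h2, -⟩ := hT.nb_top hl hn
  rw [hT.tight_new h1, hT.tight_old hv, h2]
  intro a ha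
  rw [Finset.mem_erase, Finset.mem_map] at ha
  obtain ⟨ha1, l', hl', rfl⟩ := ha
  rw [Finset.mem_insert, Finset.mem_map]
  exact Or.inr ⟨l', Finset.mem_erase.mpr ⟨fun h => ha1 (by rw [h]; rfl), hl'⟩, rfl⟩

lemma nb_ne_top {i : Fin n} (hi : i ∈ tight L.A L.b s.1) : nbV L s i ≠ s :=
  fun h => (nb_spec L s i hi).1 (congrArg Subtype.val h)

lemma sub_new_last {i : Fin n} (hi : i ∈ tight L.A L.b s.1) :
    (tight (tA L s r) (tb L s r ε) (wp L s r ε i)).erase (Fin.last n) ⊆
      tight (tA L s r) (tb L s r ε) (nbV L s i).1 := by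
  rw [hT.tight_new hi, hT.tight_old (hT.nb_ne_top hi)]
  intro a ha
  rw [Finset.mem_erase, Finset.mem_insert] at ha
  obtain ⟨ha1, ha2⟩ := ha
  rcases ha2 with ha2 | ha2
  · exact absurd ha2 ha1
  · rw [Finset.mem_map] at ha2 ⊢
    obtain ⟨l', hl', rfl⟩ := ha2
    exact ⟨l', erase_sub_nb L s i hi hl', rfl⟩

lemma sub_new_cast {i l : Fin n} (hi : i ∈ tight L.A L.b s.1) (hl : l ∈ tight L.A L.b s.1) :
    (tight (tA L s r) (tb L s r ε) (wp L s r ε i)).erase l.castSucc ⊆
      tight (tA L s r) (tb L s r ε) (wp L s r ε l) := by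
  rw [hT.tight_new hi, hT.tight_new hl]
  intro a ha
  rw [Finset.mem_erase, Finset.mem_insert] at ha
  rw [Finset.mem_insert]
  obtain ⟨ha1, ha2⟩ := ha
  rcases ha2 with ha2 | ha2
  · exact Or.inl ha2
  · rw [Finset.mem_map] at ha2
    obtain ⟨l', hl', rfl⟩ := ha2
    refine Or.inr (Finset.mem_map.mpr ⟨l', Finset.mem_erase.mpr
      ⟨fun h => ha1 (by rw [h]; rfl), Finset.mem_of_mem_erase hl'⟩, rfl⟩)

/-- all vertices -/
lemma ext_eq {x : Fin d → ℝ} (hx : x ∈ (poly (tA L s r) (tb L s r ε)).extremePoints ℝ) :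
    (∃ v : Vert L, v ≠ s ∧ v.1 = x) ∨ ∃ i ∈ tight L.A L.b s.1, wp L s r ε i = x := by
  classical
  have hTne : (tight L.A L.b s.1).Nonempty := by
    rw [← Finset.card_pos, L.simple _ s.2]
    have := hT.hd
    omega
  obtain ⟨i₀, hi₀⟩ := hTne
  have h := mem_of_closed (A := tA L s r) (b := tb L s r ε)
    (S := (fun v : Vert L => v.1) '' {v | v ≠ s} ∪
      (wp L s r ε) '' (tight L.A L.b s.1 : Set (Fin n)))
    ((Set.toFinite _).union (Set.toFinite _)) ⟨_, Or.inr ⟨i₀, hi₀, rfl⟩⟩ ?_ ?_ ?_ hx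
  · rcases h with ⟨v, hv, h⟩ | ⟨i, hi, h⟩
    · exact Or.inl ⟨v, hv, h⟩
    · exact Or.inr ⟨i, hi, h⟩
  · rintro y (⟨v, hv, rfl⟩ | ⟨i, hi, rfl⟩)
    · exact hT.old_ext hv
    · exact hT.new_ext hi
  · rintro y (⟨v, hv, rfl⟩ | ⟨i, hi, rfl⟩)
    · exact hT.card_old hv
    · exact hT.card_new hi
  · rintro y (⟨v, hv, rfl⟩ | ⟨i, hi, rfl⟩) j hj
    · simp only at hj ⊢
      have hv' : v ≠ s := hv
      rw [hT.tight_old hv', Finset.mem_map] at hj
      obtain ⟨l, hl, rfl⟩ := hj
      by_cases hn : nbV L v l = s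
      · exact ⟨wp L s r ε (ixV L v l), Or.inr ⟨_, (hT.nb_top hl hn).1, rfl⟩,
          hT.wp_ne_old (hT.nb_top hl hn).1 hv', hT.sub_old_top hv' hl hn⟩
      · exact ⟨(nbV L v l).1, Or.inl ⟨nbV L v l, hn, rfl⟩, (nb_spec L v l hl).1,
          hT.sub_old_ne hv' hl hn⟩
    · have hi' : i ∈ tight L.A L.b s.1 := hi
      rw [hT.tight_new hi', Finset.mem_insert, Finset.mem_map] at hj
      rcases hj with rfl | ⟨l, hl, rfl⟩
      · exact ⟨(nbV L s i).1, Or.inl ⟨nbV L s i, hT.nb_ne_top hi', rfl⟩,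
          (hT.wp_ne_old hi' (hT.nb_ne_top hi')).symm, hT.sub_new_last hi'⟩
      · have hl1 : l ∈ tight L.A L.b s.1 := Finset.mem_of_mem_erase hl
        have hli : l ≠ i := Finset.ne_of_mem_erase hl
        exact ⟨wp L s r ε l, Or.inr ⟨l, hl1, rfl⟩, fun h => hli (hT.wp_inj hl1 hi' h),
          hT.sub_new_cast hi' hl1⟩

lemma card_ext {x : Fin d → ℝ} (hx : x ∈ (poly (tA L s r) (tb L s r ε)).extremePoints ℝ) :
    (tight (tA L s r) (tb L s r ε) x).card = d := by
  rcases hT.ext_eq hx with ⟨v, hv, rfl⟩ | ⟨i, hi, rfl⟩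
  · exact hT.card_old hv
  · exact hT.card_new hi

/-- a new vertex and an old neighbour have different values -/
lemma adj_new_old {i : Fin n} (hi : i ∈ tight L.A L.b s.1) {v : Vert L} (hv : v ≠ s)
    (h : Adj (poly (tA L s r) (tb L s r ε)) (wp L s r ε i) v.1) :
    L.c ⬝ᵥ v.1 < L.c ⬝ᵥ wp L s r ε i := by
  obtain ⟨j, hj, hsub⟩ := tight_of_adj (hT.card_new hi) h
  rw [hT.tight_new hi, hT.tight_old hv] at hsub
  have hlast : j = Fin.last n := by
    by_contra hne
    have h1 := hsub (Finset.mem_erase.mpr ⟨fun h => hne h.symm, Finset.mem_insert_self _ _⟩)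
    rw [Finset.mem_map] at h1
    obtain ⟨l, -, h'⟩ := h1
    exact absurd h' (Fin.castSucc_lt_last l).ne
  subst hlast
  have h2 : (tight L.A L.b s.1).erase i ⊆ tight L.A L.b v.1 := by
    intro l hl
    have h3 := hsub (Finset.mem_erase.mpr ⟨(Fin.castSucc_lt_last l).ne,
      Finset.mem_insert_of_mem (Finset.mem_map.mpr ⟨l, hl, rfl⟩)⟩)
    rw [Finset.mem_map] at h3
    obtain ⟨l', hl', h'⟩ := h3
    have : l' = l := Fin.castSucc_injective n h'
    rwa [← this]
  have h4 := nb_eq L s v i hi (fun h => hv (Subtype.ext h)) h2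
  have h5 := hT.nb_lt_wp hi
  rwa [h4] at h5

lemma generic' (x y : Fin d → ℝ) (h : Adj (poly (tA L s r) (tb L s r ε)) x y) :
    L.c ⬝ᵥ x ≠ L.c ⬝ᵥ y := by
  rcases hT.ext_eq h.1 with ⟨v, hv, rfl⟩ | ⟨i, hi, rfl⟩
  · rcases hT.ext_eq h.2.1 with ⟨w, hw, rfl⟩ | ⟨i, hi, rfl⟩
    · apply L.generic
      obtain ⟨j, hj, hsub⟩ := tight_of_adj (hT.card_old hv) h
      rw [hT.tight_old hv, Finset.mem_map] at hj
      obtain ⟨l, hl, rfl⟩ := hj
      refine adj_of_tight v.2 (L.simple _ v.2) w.2 h.2.2.1.symm hl ?_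
      intro l' hl'
      rw [hT.tight_old hv, hT.tight_old hw] at hsub
      have h3 := hsub (Finset.mem_erase.mpr
        ⟨fun h => (Finset.ne_of_mem_erase hl') (Fin.castSucc_injective n h),
          Finset.mem_map.mpr ⟨l', Finset.mem_of_mem_erase hl', rfl⟩⟩)
      rw [Finset.mem_map] at h3
      obtain ⟨l'', hl'', h'⟩ := h3
      have : l'' = l' := Fin.castSucc_injective n h'
      rwa [← this]
    · exact (hT.adj_new_old hi hv (adj_symm h)).ne
  · rcases hT.ext_eq h.2.1 with ⟨w, hw, rfl⟩ | ⟨j, hj, rfl⟩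
    · exact (hT.adj_new_old hi hw h).ne'
    · rw [hT.wp_c hi, hT.wp_c hj]
      intro h1
      have h2 : (r i : ℝ) = r j := by
        have h3 : ε * ((r i : ℝ) + 1) = ε * ((r j : ℝ) + 1) := by linarith
        have h4 := mul_left_cancel₀ hT.eps.ne' h3
        linarith
      have h3 : i = j := hT.inj (Finset.mem_coe.mpr hi) (Finset.mem_coe.mpr hj)
        (by exact_mod_cast h2)
      exact h.2.2.1 (by rw [h3])

/-- a vertex different from the optimum on every old facet -/
lemma exists_other (j : Fin n) : ∃ v : Vert L, v ≠ s ∧ j ∈ tight L.A L.b v.1 := by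
  obtain ⟨v, hv⟩ := exists_vertex_on L j
  by_cases h : v = s
  · subst h
    have h1 : ((tight L.A L.b v.1).erase j).Nonempty := by
      rw [← Finset.card_pos, Finset.card_erase_of_mem hv, L.simple _ v.2]
      have := hT.hd
      omega
    obtain ⟨l, hl⟩ := h1
    have hl1 := Finset.mem_of_mem_erase hl
    refine ⟨nbV L v l, fun h => (nb_spec L v l hl1).1 (congrArg Subtype.val h), ?_⟩
    exact erase_sub_nb L v l hl1 (Finset.mem_erase.mpr ⟨(Finset.ne_of_mem_erase hl).symm, hv⟩)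
  · exact ⟨v, h, hv⟩

/-- The truncated instance, with any start vertex. -/
noncomputable def inst (v₀ : Vert L) (hv₀ : v₀ ≠ s) : LPInstance d (n + 1) where
  A := tA L s r
  b := tb L s r ε
  c := L.c
  v₀ := v₀.1
  bounded := L.bounded.subset fun x hx => ((mem_tpoly L s r ε x).mp hx).1
  fullDim := by
    classical
    obtain ⟨δ, hδ, h⟩ := small_step (A := tA L s r) (b := tb L s r ε) v₀.1
      (∑ i ∈ tight L.A L.b v₀.1, Ext.dirV L v₀ i)
    refine interior_of_strict (x := v₀.1 + δ • ∑ i ∈ tight L.A L.b v₀.1, Ext.dirV L v₀ i) ?_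
    intro l
    by_cases hl : l ∈ tight (tA L s r) (tb L s r ε) v₀.1
    · rw [hT.tight_old hv₀, Finset.mem_map] at hl
      obtain ⟨l', hl', rfl⟩ := hl
      show tA L s r l'.castSucc ⬝ᵥ _ < tb L s r ε l'.castSucc
      rw [tA_cast, tb_cast, dotProduct_add, dotProduct_smul, dotProduct_sum,
        Finset.sum_eq_single l', Ext.dir_self L v₀ hl', mem_tight.mp hl', smul_eq_mul]
      · linarith
      · intro i hi hil
        exact Ext.dir_ne L v₀ hi hl' hil.symm
      · intro h; exact absurd hl' h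
    · exact h l (lt_of_le_of_ne (hT.old_mem hv₀ l) fun h => hl (mem_tight.mpr h))
  irredundant := by
    intro j
    induction j using Fin.lastCases with
    | last =>
      refine ⟨s.1, fun l hl => ?_, ?_⟩
      · induction l using Fin.lastCases with
        | last => exact absurd rfl hl
        | cast l =>
          rw [tA_cast, tb_cast]
          exact s.2.1 l
      · rw [tA_last, tb_last, ra_dot, rb]
        have h1 : slk L s r s.1 = 0 := by
          unfold slk
          refine Finset.sum_eq_zero fun i hi => ?_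
          rw [mem_tight.mp hi]
          ring
        rw [h1]
        have := hT.eps
        linarith
    | cast j =>
      obtain ⟨v, hv, hj⟩ := hT.exists_other j
      obtain ⟨δ, hδ, h⟩ := small_step (A := tA L s r) (b := tb L s r ε) v.1
        (-(Ext.dirV L v j))
      refine ⟨v.1 + δ • (-(Ext.dirV L v j)), fun l hl => ?_, ?_⟩
      · by_cases hl' : l ∈ tight (tA L s r) (tb L s r ε) v.1
        · rw [hT.tight_old hv, Finset.mem_map] at hl'
          obtain ⟨l', hl'', rfl⟩ := hl'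
          have hne : l' ≠ j := fun h => hl (by rw [h]; rfl)
          show tA L s r l'.castSucc ⬝ᵥ _ ≤ tb L s r ε l'.castSucc
          rw [tA_cast, tb_cast, dotProduct_add, dotProduct_smul, dotProduct_neg,
            Ext.dir_ne L v hj hl'' hne, mem_tight.mp hl'', smul_eq_mul]
          linarith
        · exact (h l (lt_of_le_of_ne (hT.old_mem hv l) fun h => hl' (mem_tight.mpr h))).le
      · rw [tA_cast, tb_cast, dotProduct_add, dotProduct_smul, dotProduct_neg,
          Ext.dir_self L v hj, mem_tight.mp hj, smul_eq_mul]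
        linarith
  simple := fun x hx => hT.card_ext hx
  generic := hT.generic'
  start := hT.old_ext hv₀

end Tr

end Pool.Agent.SharpV
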