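import Pool.Agent.FewFacets.Sub
import Pool.Agent.SharpV.Core

/-!
# The upper bound `2 e N H_{d+1} / (d+1)` for the number of random-edge steps
-/

open scoped ENNReal
open Matrix Finset Pool.Agent.Hhelper78.RandomEdge Pool.Agent.FewFacets

namespace Pool.Agent.SharpV

variable {d n : ℕ} (L : LPInstance d n)

/-- A real supersolution bounds the expected number of steps. -/
lemma expectedSteps_le_real (φ : Vert L → ℝ) (h0 : ∀ v, 0 ≤ φ v)
    (h : ∀ v, (outV L v).card + ∑ g ∈ outV L v, φ (nbV L v g) ≤ (outV L v).card * φ v) :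
    L.expectedSteps ≤ ENNReal.ofReal (φ ⟨L.v₀, L.start⟩) := by
  classical
  apply expectedSteps_le_of_super L (fun v => ENNReal.ofReal (φ v))
  intro v
  rw [sum_step]
  rcases Finset.eq_empty_or_nonempty (outV L v) with he | he
  · rw [he]
    simp
  · have hc : (0 : ℝ) < (outV L v).card := by exact_mod_cast Finset.card_pos.mpr he
    have h1 : ∀ g ∈ outV L v, ((outV L v).card : ℝ≥0∞)⁻¹ * (1 + ENNReal.ofReal (φ (nbV L v g))) =
        ENNReal.ofReal (((outV L v).card : ℝ)⁻¹ * (1 + φ (nbV L v g))) := by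
      intro g _
      rw [ENNReal.ofReal_mul (by positivity), ENNReal.ofReal_inv_of_pos hc,
        ENNReal.ofReal_natCast, ENNReal.ofReal_add zero_le_one (h0 _), ENNReal.ofReal_one]
    rw [Finset.sum_congr rfl h1, ← ENNReal.ofReal_sum_of_nonneg]
    · apply ENNReal.ofReal_le_ofReal
      rw [← Finset.mul_sum, Finset.sum_add_distrib, Finset.sum_const, nsmul_eq_mul, mul_one]
      rw [← div_eq_inv_mul, div_le_iff₀ hc]
      linarith [h v]
    · intro g _
      have := h0 (nbV L v g)
      positivity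

/-- the outdegree, replaced by one at the sink -/
noncomputable def mo (v : Vert L) : ℝ := max 1 ((outV L v).card : ℝ)

lemma mo_ge (v : Vert L) : 1 ≤ mo L v := le_max_left _ _

lemma mo_pos (v : Vert L) : 0 < mo L v := lt_of_lt_of_le one_pos (mo_ge L v)

open Classical in
/-- total weight of the vertices above `v` -/
noncomputable def above (v : Vert L) : ℝ :=
  ∑ u ∈ univ.filter (fun u : Vert L => L.c ⬝ᵥ v.1 < L.c ⬝ᵥ u.1), (mo L u)⁻¹

/-- the potential -/
noncomputable def pot (v : Vert L) : ℝ := Real.exp 1 * above L v - Real.log (mo L v)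

lemma step_weight (v : Vert L) {k : Fin n} (hk : k ∈ outV L v) :
    ∑ i ∈ (outV L v).filter (fun i => L.c ⬝ᵥ (nbV L v i).1 ≤ L.c ⬝ᵥ (nbV L v k).1),
      (mo L (nbV L v i))⁻¹ + above L (nbV L v k) ≤ above L v := by
  classical
  unfold above
  set O' := (outV L v).filter (fun i => L.c ⬝ᵥ (nbV L v i).1 ≤ L.c ⬝ᵥ (nbV L v k).1) with hO'
  have h1 : ∑ i ∈ O', (mo L (nbV L v i))⁻¹ = ∑ u ∈ O'.image (nbV L v), (mo L u)⁻¹ := by
    rw [Finset.sum_image]
    intro i hi j hj h
    have hi' := (Finset.mem_filter.mp (Finset.mem_coe.mp hi)).1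
    have hj' := (Finset.mem_filter.mp (Finset.mem_coe.mp hj)).1
    exact nb_inj L v ((mem_outV L).mp hi').1 ((mem_outV L).mp hj').1 h
  rw [h1, ← Finset.sum_union]
  · apply Finset.sum_le_sum_of_subset_of_nonneg
    · intro u hu
      rw [Finset.mem_union, Finset.mem_image, Finset.mem_filter] at hu
      rw [Finset.mem_filter]
      refine ⟨Finset.mem_univ _, ?_⟩
      rcases hu with ⟨i, hi, rfl⟩ | ⟨-, hu⟩
      · exact ((mem_outV L).mp (Finset.mem_filter.mp hi).1).2
      · exact ((mem_outV L).mp hk).2.trans hu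
    · intro u _ _
      exact inv_nonneg.mpr (mo_pos L u).le
  · rw [Finset.disjoint_left]
    intro u hu hu'
    rw [Finset.mem_image] at hu
    obtain ⟨i, hi, rfl⟩ := hu
    rw [Finset.mem_filter] at hi hu'
    exact absurd hu'.2 (not_lt.mpr hi.2)

/-- the potential is a supersolution -/
lemma pot_super (v : Vert L) :
    (outV L v).card + ∑ g ∈ outV L v, pot L (nbV L v g) ≤ (outV L v).card * pot L v := by
  classical
  rcases Finset.eq_empty_or_nonempty (outV L v) with he | he
  · rw [he]; simp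
  have hc : 1 ≤ (outV L v).card := Finset.card_pos.mpr he
  have hc' : (1 : ℝ) ≤ (outV L v).card := by exact_mod_cast hc
  have hmo : mo L v = (outV L v).card := max_eq_right hc'
  have h1 := core_ineq (outV L v) (fun i => L.c ⬝ᵥ (nbV L v i).1)
    (fun i => mo L (nbV L v i)) (fun i _ => mo_pos L _)
  have h2 := swap_rank (outV L v) (fun i => L.c ⬝ᵥ (nbV L v i).1)
    (fun i => (mo L (nbV L v i))⁻¹)
  have h3 : ∑ k ∈ outV L v, (∑ i ∈ (outV L v).filter
      (fun i => L.c ⬝ᵥ (nbV L v i).1 ≤ L.c ⬝ᵥ (nbV L v k).1),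
      (mo L (nbV L v i))⁻¹ + above L (nbV L v k)) ≤ ∑ _k ∈ outV L v, above L v :=
    Finset.sum_le_sum fun k hk => step_weight L v hk
  rw [Finset.sum_add_distrib, h2, Finset.sum_const, nsmul_eq_mul] at h3
  unfold pot
  rw [Finset.sum_sub_distrib, ← Finset.mul_sum, hmo]
  have he1 : 0 < Real.exp 1 := Real.exp_pos 1
  have h4 := mul_le_mul_of_nonneg_left h3 he1.le
  rw [mul_add] at h4
  have h5 : Real.exp 1 * ((outV L v).card * above L v) =
    (outV L v).card * (Real.exp 1 * above L v) := by ring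
  rw [h5] at h4
  rw [mul_sub]
  linarith

lemma pot_nonneg (v : Vert L) : 0 ≤ pot L v := by
  classical
  have key : ∀ k : ℕ, ∀ v : Vert L, Fintype.card (Vert L) - rk L v ≤ k → 0 ≤ pot L v := by
    intro k
    induction k with
    | zero =>
      intro v hv
      have := rk_lt_card L v
      omega
    | succ k ih =>
      intro v hv
      rcases Finset.eq_empty_or_nonempty (outV L v) with he | he
      · unfold pot
        have : mo L v = 1 := by unfold mo; rw [he]; simp
        rw [this, Real.log_one, sub_zero]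
        have h1 : 0 ≤ above L v := by
          unfold above
          exact Finset.sum_nonneg fun u _ => inv_nonneg.mpr (mo_pos L u).le
        positivity
      · have hc : (0 : ℝ) < (outV L v).card := by exact_mod_cast Finset.card_pos.mpr he
        have h1 := pot_super L v
        have h2 : 0 ≤ ∑ g ∈ outV L v, pot L (nbV L v g) := by
          refine Finset.sum_nonneg fun g hg => ih _ ?_
          have := rk_lt L ((mem_outV L).mp hg).2
          have := rk_lt_card L (nbV L v g)
          omega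
        by_contra hcon
        have h3 : (outV L v).card * pot L v < 0 := mul_neg_of_pos_of_neg hc (not_le.mp hcon)
        linarith
  exact key _ v le_rfl

lemma above_le (v : Vert L) : above L v ≤ ∑ u : Vert L, (mo L u)⁻¹ := by
  classical
  unfold above
  apply Finset.sum_le_sum_of_subset_of_nonneg (Finset.subset_univ _)
  intro u _ _
  exact inv_nonneg.mpr (mo_pos L u).le

/-- **Weight bound**: the expected number of steps is at most `e` times the sum of the inverse
outdegrees. -/
theorem expectedSteps_le_weight :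
    L.expectedSteps ≤ ENNReal.ofReal (Real.exp 1 * ∑ u : Vert L, (mo L u)⁻¹) := by
  refine (expectedSteps_le_real L (pot L) (pot_nonneg L) (pot_super L)).trans
    (ENNReal.ofReal_le_ofReal ?_)
  unfold pot
  have h1 := Real.log_nonneg (mo_ge L ⟨L.v₀, L.start⟩)
  have h2 := above_le L ⟨L.v₀, L.start⟩
  have h3 := mul_le_mul_of_nonneg_left h2 (Real.exp_pos 1).le
  linarith

/-! ### Counting faces -/

/-- A face has at most one sink. -/
lemma card_sink_le (J : Finset (Fin n)) :
    (univ.filter fun v : Vert L => outV L v ⊆ J ∧ J ⊆ tight L.A L.b v.1).card ≤ 1 := by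
  rw [Finset.card_le_one]
  intro v hv w hw
  rw [Finset.mem_filter] at hv hw
  rcases le_total (L.c ⬝ᵥ v.1) (L.c ⬝ᵥ w.1) with h | h
  · exact max_face L v w (hv.2.1.trans hw.2.2) h
  · exact (max_face L w v (hw.2.1.trans hv.2.2) h).symm

/-- A nonempty face of dimension `d - |J|` has at least `d - |J| + 1` vertices. -/
lemma card_face_ge (J : Finset (Fin n)) {v : Vert L} (hv : J ⊆ tight L.A L.b v.1) :
    d - J.card + 1 ≤ (univ.filter fun w : Vert L => J ⊆ tight L.A L.b w.1).card := by
  classical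
  have h1 : (insert v ((tight L.A L.b v.1 \ J).image (nbV L v))).card = d - J.card + 1 := by
    rw [Finset.card_insert_of_notMem, Finset.card_image_of_injOn, Finset.card_sdiff_of_subset hv,
      L.simple _ v.2]
    · intro i hi j hj h
      have hi' := (Finset.mem_sdiff.mp (Finset.mem_coe.mp hi)).1
      have hj' := (Finset.mem_sdiff.mp (Finset.mem_coe.mp hj)).1
      exact nb_inj L v hi' hj' h
    · intro h
      rw [Finset.mem_image] at h
      obtain ⟨i, hi, h⟩ := h
      exact (nb_spec L v i (Finset.mem_sdiff.mp hi).1).1 (congrArg Subtype.val h)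
  rw [← h1]
  apply Finset.card_le_card
  intro w hw
  rw [Finset.mem_filter]
  refine ⟨Finset.mem_univ _, ?_⟩
  rw [Finset.mem_insert, Finset.mem_image] at hw
  rcases hw with rfl | ⟨i, hi, rfl⟩
  · exact hv
  · intro j hj
    rw [Finset.mem_sdiff] at hi
    apply erase_sub_nb L v i hi.1
    rw [Finset.mem_erase]
    exact ⟨fun h => hi.2 (h ▸ hj), hv hj⟩

lemma sink_mul_le (J : Finset (Fin n)) :
    (univ.filter fun v : Vert L => outV L v ⊆ J ∧ J ⊆ tight L.A L.b v.1).card * (d - J.card + 1) ≤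
      (univ.filter fun w : Vert L => J ⊆ tight L.A L.b w.1).card := by
  classical
  rcases Finset.eq_empty_or_nonempty
    (univ.filter fun v : Vert L => outV L v ⊆ J ∧ J ⊆ tight L.A L.b v.1) with he | ⟨v, hv⟩
  · rw [he]; simp
  · have h1 := card_sink_le L J
    have h2 := card_face_ge L J (Finset.mem_filter.mp hv).2.2
    calc _ ≤ 1 * (d - J.card + 1) := Nat.mul_le_mul_right _ h1
      _ ≤ _ := by rw [one_mul]; exact h2

lemma outV_sub (v : Vert L) : outV L v ⊆ tight L.A L.b v.1 := fun _ hi => ((mem_outV L).mp hi).1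

lemma sum_between (v : Vert L) :
    ∑ J ∈ (univ : Finset (Finset (Fin n))).filter
      (fun J => outV L v ⊆ J ∧ J ⊆ tight L.A L.b v.1), ((d.choose J.card : ℝ))⁻¹ =
      ((d : ℝ) + 1) / ((outV L v).card + 1) := by
  classical
  set a := (outV L v).card with ha
  have had : a ≤ d := (Finset.card_le_card (outV_sub L v)).trans_eq (L.simple _ v.2)
  have h1 : (univ : Finset (Finset (Fin n))).filter
      (fun J => outV L v ⊆ J ∧ J ⊆ tight L.A L.b v.1) =
      (tight L.A L.b v.1 \ outV L v).powerset.image (fun K => outV L v ∪ K) := by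
    ext J
    rw [Finset.mem_filter, Finset.mem_image]
    constructor
    · rintro ⟨-, h2, h3⟩
      refine ⟨J \ outV L v, ?_, Finset.union_sdiff_of_subset h2⟩
      rw [Finset.mem_powerset]
      exact Finset.sdiff_subset_sdiff h3 (Finset.Subset.refl _)
    · rintro ⟨K, hK, rfl⟩
      rw [Finset.mem_powerset] at hK
      refine ⟨Finset.mem_univ _, Finset.subset_union_left, ?_⟩
      exact Finset.union_subset (outV_sub L v) (hK.trans Finset.sdiff_subset)
  rw [h1, Finset.sum_image]
  · have h2 : ∀ K ∈ (tight L.A L.b v.1 \ outV L v).powerset,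
        ((d.choose (outV L v ∪ K).card : ℝ))⁻¹ = ((d.choose (a + K.card) : ℝ))⁻¹ := by
      intro K hK
      rw [Finset.mem_powerset] at hK
      rw [Finset.card_union_of_disjoint, ← ha]
      rw [Finset.disjoint_left]
      intro x hx hx'
      exact (Finset.mem_sdiff.mp (hK hx')).2 hx
    rw [Finset.sum_congr rfl h2]
    have h3 := Finset.sum_powerset_apply_card (fun j => ((d.choose (a + j) : ℝ))⁻¹)
      (x := tight L.A L.b v.1 \ outV L v)
    rw [h3, Finset.card_sdiff_of_subset (outV_sub L v), L.simple _ v.2, ← ha]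
    have h4 := sum_inv_choose (d := d) (m := d - a) (by omega)
    rw [← Finset.sum_range_reflect] at h4
    have h5 : ((d : ℝ) - ((d - a : ℕ) : ℝ) + 1) = (a : ℝ) + 1 := by
      rw [Nat.cast_sub had]; ring
    rw [h5] at h4
    rw [← h4]
    refine Finset.sum_congr rfl fun j hj => ?_
    rw [Finset.mem_range] at hj
    rw [nsmul_eq_mul]
    have e1 : d - a + 1 - 1 - j = d - a - j := by omega
    rw [e1, Nat.choose_symm (by omega : j ≤ d - a)]
    congr 2
    rw [← Nat.choose_symm (by omega : a + j ≤ d)]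
    congr 2
    omega
  · intro K hK K' hK' h
    rw [Finset.mem_coe, Finset.mem_powerset] at hK hK'
    have h3 : ∀ K'' ⊆ tight L.A L.b v.1 \ outV L v, (outV L v ∪ K'') \ outV L v = K'' := by
      intro K'' hK''
      rw [Finset.union_sdiff_left, Finset.sdiff_eq_self_iff_disjoint, Finset.disjoint_left]
      intro x hx hx'
      exact (Finset.mem_sdiff.mp (hK'' hx)).2 hx'
    rw [← h3 K hK, ← h3 K' hK']
    exact congrArg (· \ outV L v) h

lemma sum_sub (v : Vert L) :
    ∑ J ∈ (univ : Finset (Finset (Fin n))).filter (fun J => J ⊆ tight L.A L.b v.1),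
      ((d.choose J.card : ℝ))⁻¹ * (((d - J.card + 1 : ℕ) : ℝ))⁻¹ = (harmonic (d + 1) : ℝ) := by
  classical
  have h1 : (univ : Finset (Finset (Fin n))).filter (fun J => J ⊆ tight L.A L.b v.1) =
      (tight L.A L.b v.1).powerset := by
    ext J
    simp
  rw [h1]
  have h3 := Finset.sum_powerset_apply_card
    (fun j => ((d.choose j : ℝ))⁻¹ * (((d - j + 1 : ℕ) : ℝ))⁻¹) (x := tight L.A L.b v.1)
  rw [h3, L.simple _ v.2]
  have h2 : ∀ j ∈ Finset.range (d + 1), d.choose j •
      (((d.choose j : ℝ))⁻¹ * (((d - j + 1 : ℕ) : ℝ))⁻¹) = (((d - j + 1 : ℕ) : ℝ))⁻¹ := by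
    intro j hj
    rw [Finset.mem_range] at hj
    have : (0 : ℝ) < d.choose j := by exact_mod_cast Nat.choose_pos (by omega : j ≤ d)
    rw [nsmul_eq_mul, ← mul_assoc, mul_inv_cancel₀ this.ne', one_mul]
  rw [Finset.sum_congr rfl h2, ← Finset.sum_range_reflect, harmonic, Rat.cast_sum]
  refine Finset.sum_congr rfl fun j hj => ?_
  rw [Finset.mem_range] at hj
  have : d - (d + 1 - 1 - j) + 1 = j + 1 := by omega
  rw [this]
  push_cast
  rfl

/-- **Face counting**: the average of `1 / (outdegree + 1)` is at most `H_{d+1} / (d + 1)`. -/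
theorem sum_inv_out_le :
    ((d : ℝ) + 1) * ∑ v : Vert L, (((outV L v).card : ℝ) + 1)⁻¹ ≤
      Fintype.card (Vert L) * (harmonic (d + 1) : ℝ) := by
  classical
  have h1 : ((d : ℝ) + 1) * ∑ v : Vert L, (((outV L v).card : ℝ) + 1)⁻¹ =
      ∑ v : Vert L, ∑ J ∈ (univ : Finset (Finset (Fin n))).filter
      (fun J => outV L v ⊆ J ∧ J ⊆ tight L.A L.b v.1), ((d.choose J.card : ℝ))⁻¹ := by
    rw [Finset.mul_sum]
    refine Finset.sum_congr rfl fun v _ => ?_
    rw [sum_between, div_eq_mul_inv]
  have h2 : (Fintype.card (Vert L) : ℝ) * (harmonic (d + 1) : ℝ) =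
      ∑ v : Vert L, ∑ J ∈ (univ : Finset (Finset (Fin n))).filter
        (fun J => J ⊆ tight L.A L.b v.1),
      ((d.choose J.card : ℝ))⁻¹ * (((d - J.card + 1 : ℕ) : ℝ))⁻¹ := by
    rw [Finset.sum_congr rfl fun v _ => sum_sub L v, Finset.sum_const, nsmul_eq_mul,
      Finset.card_univ]
  rw [h1, h2]
  simp only [Finset.sum_filter]
  rw [Finset.sum_comm, Finset.sum_comm (s := (univ : Finset (Vert L)))]
  refine Finset.sum_le_sum fun J _ => ?_
  rw [← Finset.sum_filter, ← Finset.sum_filter, Finset.sum_const, Finset.sum_const, nsmul_eq_mul,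
    nsmul_eq_mul]
  have h3 := sink_mul_le L J
  have h4 : (0 : ℝ) < ((d - J.card + 1 : ℕ) : ℝ) := by positivity
  have h5 : ((univ.filter fun v : Vert L => outV L v ⊆ J ∧ J ⊆ tight L.A L.b v.1).card : ℝ) ≤
      ((univ.filter fun w : Vert L => J ⊆ tight L.A L.b w.1).card : ℝ) *
        (((d - J.card + 1 : ℕ) : ℝ))⁻¹ := by
    rw [← div_eq_mul_inv, le_div_iff₀ h4]
    exact_mod_cast h3
  calc _ ≤ ((univ.filter fun w : Vert L => J ⊆ tight L.A L.b w.1).card : ℝ) *
        (((d - J.card + 1 : ℕ) : ℝ))⁻¹ * ((d.choose J.card : ℝ))⁻¹ := by gcongr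
    _ = _ := by ring

lemma inv_mo_le (v : Vert L) : (mo L v)⁻¹ ≤ 2 * (((outV L v).card : ℝ) + 1)⁻¹ := by
  unfold mo
  rw [← div_eq_mul_inv, inv_eq_one_div, div_le_div_iff₀ (by positivity) (by positivity)]
  have h1 := le_max_left (1 : ℝ) ((outV L v).card : ℝ)
  have h2 := le_max_right (1 : ℝ) ((outV L v).card : ℝ)
  linarith

/-- **Upper bound.** -/
theorem expectedSteps_le_card :
    L.expectedSteps ≤ ENNReal.ofReal
      (2 * Real.exp 1 * Fintype.card (Vert L) * (harmonic (d + 1) : ℝ) / (d + 1)) := by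
  refine (expectedSteps_le_weight L).trans (ENNReal.ofReal_le_ofReal ?_)
  have h1 : ∑ u : Vert L, (mo L u)⁻¹ ≤ 2 * ∑ v : Vert L, (((outV L v).card : ℝ) + 1)⁻¹ := by
    rw [Finset.mul_sum]
    exact Finset.sum_le_sum fun v _ => inv_mo_le L v
  have h2 := sum_inv_out_le L
  have hd : (0 : ℝ) < (d : ℝ) + 1 := by positivity
  rw [le_div_iff₀ hd]
  have he := Real.exp_pos 1
  calc (Real.exp 1 * ∑ u : Vert L, (mo L u)⁻¹) * ((d : ℝ) + 1) ≤
        (Real.exp 1 * (2 * ∑ v : Vert L, (((outV L v).card : ℝ) + 1)⁻¹)) * ((d : ℝ) + 1) := by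
        gcongr
    _ = 2 * Real.exp 1 * (((d : ℝ) + 1) * ∑ v : Vert L, (((outV L v).card : ℝ) + 1)⁻¹) := by
        ring
    _ ≤ 2 * Real.exp 1 * (Fintype.card (Vert L) * (harmonic (d + 1) : ℝ)) := by gcongr
    _ = _ := by ring

end Pool.Agent.SharpV
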