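import Pool.Agent.SharpV.Trunc
import Pool.Agent.SharpV.Sol

/-!
# The random-edge walk on the truncated polytope
-/

open scoped ENNReal Topology
open Matrix Finset Filter Pool.Agent.Hhelper78.RandomEdge Pool.Agent.FewFacets

namespace Pool.Agent.SharpV

variable {d n : ℕ}

/-- harmonic numbers as reals -/
noncomputable def hm (k : ℕ) : ℝ := (harmonic k : ℝ)

lemma hm_zero : hm 0 = 0 := by simp [hm]

lemma hm_succ (k : ℕ) : hm (k + 1) = hm k + ((k : ℝ) + 1)⁻¹ := by
  unfold hm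
  rw [harmonic_succ]
  push_cast
  rfl

lemma hm_nonneg (k : ℕ) : 0 ≤ hm k := by
  induction k with
  | zero => rw [hm_zero]
  | succ k ih =>
    rw [hm_succ]
    positivity

lemma mul_hm (k : ℕ) : (k : ℝ) * hm k = k + ∑ j ∈ Finset.range k, hm j := by
  induction k with
  | zero => simp
  | succ k ih =>
    rw [Finset.sum_range_succ, hm_succ, mul_add]
    have : ((k : ℝ) + 1) ≠ 0 := by positivity
    push_cast
    rw [mul_inv_cancel₀ this]
    linarith

variable {L : LPInstance d n} {s : Vert L} {r : Fin n → ℕ} {ε : ℝ}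

namespace Tr

variable (hT : Tr L s r ε) (v₀ : Vert L) (hv₀ : v₀ ≠ s)

/-- an old vertex as a vertex of the truncated instance -/
noncomputable def oldV (v : Vert L) (hv : v ≠ s) : Vert (hT.inst v₀ hv₀) := ⟨v.1, hT.old_ext hv⟩

/-- a new vertex as a vertex of the truncated instance -/
noncomputable def newV (i : Fin n) (hi : i ∈ tight L.A L.b s.1) : Vert (hT.inst v₀ hv₀) :=
  ⟨wp L s r ε i, hT.new_ext hi⟩

lemma cases_vert (x : Vert (hT.inst v₀ hv₀)) :
    (∃ (v : Vert L) (hv : v ≠ s), x = hT.oldV v₀ hv₀ v hv) ∨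
      ∃ (i : Fin n) (hi : i ∈ tight L.A L.b s.1), x = hT.newV v₀ hv₀ i hi := by
  rcases hT.ext_eq x.2 with ⟨v, hv, h⟩ | ⟨i, hi, h⟩
  · exact Or.inl ⟨v, hv, Subtype.ext h.symm⟩
  · exact Or.inr ⟨i, hi, Subtype.ext h.symm⟩

lemma nb_old_ne {v : Vert L} (hv : v ≠ s) {i : Fin n} (hi : i ∈ tight L.A L.b v.1)
    (hn : nbV L v i ≠ s) : nbV (hT.inst v₀ hv₀) (hT.oldV v₀ hv₀ v hv) i.castSucc =
      hT.oldV v₀ hv₀ (nbV L v i) hn := by
  apply nb_eq
  · exact (ttight_cast L s r ε v.1 i).mpr hi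
  · exact (nb_spec L v i hi).1
  · exact hT.sub_old_ne hv hi hn

lemma nb_old_top {v : Vert L} (hv : v ≠ s) {i : Fin n} (hi : i ∈ tight L.A L.b v.1)
    (hn : nbV L v i = s) : nbV (hT.inst v₀ hv₀) (hT.oldV v₀ hv₀ v hv) i.castSucc =
      hT.newV v₀ hv₀ (ixV L v i) (hT.nb_top hi hn).1 := by
  apply nb_eq
  · exact (ttight_cast L s r ε v.1 i).mpr hi
  · exact hT.wp_ne_old (hT.nb_top hi hn).1 hv
  · exact hT.sub_old_top hv hi hn

lemma nb_new_last {i : Fin n} (hi : i ∈ tight L.A L.b s.1) :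
    nbV (hT.inst v₀ hv₀) (hT.newV v₀ hv₀ i hi) (Fin.last n) =
      hT.oldV v₀ hv₀ (nbV L s i) (hT.nb_ne_top hi) := by
  apply nb_eq
  · exact (ttight_last L s r ε _).mpr (hT.wp_slk hi)
  · exact (hT.wp_ne_old hi (hT.nb_ne_top hi)).symm
  · exact hT.sub_new_last hi

lemma nb_new_cast {i l : Fin n} (hi : i ∈ tight L.A L.b s.1) (hl : l ∈ tight L.A L.b s.1)
    (hli : l ≠ i) : nbV (hT.inst v₀ hv₀) (hT.newV v₀ hv₀ i hi) l.castSucc =
      hT.newV v₀ hv₀ l hl := by
  apply nb_eq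
  · show l.castSucc ∈ tight (tA L s r) (tb L s r ε) (wp L s r ε i)
    rw [ttight_cast, hT.wp_tight hi]
    exact Finset.mem_erase.mpr ⟨hli, hl⟩
  · exact fun h => hli (hT.wp_inj hl hi h)
  · exact hT.sub_new_cast hi hl

lemma out_old {v : Vert L} (hv : v ≠ s) :
    outV (hT.inst v₀ hv₀) (hT.oldV v₀ hv₀ v hv) = (outV L v).map Fin.castSuccEmb := by
  ext j
  rw [mem_outV, Finset.mem_map]
  induction j using Fin.lastCases with
  | last =>
    constructor
    · rintro ⟨h, -⟩
      exact absurd ((ttight_last L s r ε v.1).mp h) (hT.small v hv).ne'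
    · rintro ⟨i, -, h⟩
      exact absurd h (Fin.castSucc_lt_last i).ne
  | cast i =>
    have hcast : (∃ a ∈ outV L v, Fin.castSuccEmb a = i.castSucc) ↔ i ∈ outV L v := by
      constructor
      · rintro ⟨i', h, h'⟩
        have : i' = i := Fin.castSucc_injective n h'
        rwa [← this]
      · intro h
        exact ⟨i, h, rfl⟩
    rw [hcast, mem_outV]
    have ht : i.castSucc ∈ tight (hT.inst v₀ hv₀).A (hT.inst v₀ hv₀).b
        (hT.oldV v₀ hv₀ v hv).1 ↔ i ∈ tight L.A L.b v.1 := ttight_cast L s r ε v.1 i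
    rw [ht]
    constructor
    · rintro ⟨hi, h⟩
      refine ⟨hi, ?_⟩
      by_cases hn : nbV L v i = s
      · rw [hn]
        exact lt_top L hT.top hv
      · rw [hT.nb_old_ne v₀ hv₀ hv hi hn] at h
        exact h
    · rintro ⟨hi, h⟩
      refine ⟨hi, ?_⟩
      by_cases hn : nbV L v i = s
      · rw [hT.nb_old_top v₀ hv₀ hv hi hn]
        have h1 := hT.nb_top hi hn
        have h2 := hT.nb_lt_wp h1.1
        rw [h1.2.2 hv] at h2
        exact h2
      · rw [hT.nb_old_ne v₀ hv₀ hv hi hn]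
        exact h

lemma out_new {i : Fin n} (hi : i ∈ tight L.A L.b s.1) :
    outV (hT.inst v₀ hv₀) (hT.newV v₀ hv₀ i hi) =
      ((tight L.A L.b s.1).filter fun l => r l < r i).map Fin.castSuccEmb := by
  ext j
  rw [mem_outV, Finset.mem_map]
  induction j using Fin.lastCases with
  | last =>
    constructor
    · rintro ⟨-, h⟩
      rw [hT.nb_new_last v₀ hv₀ hi] at h
      have h' : L.c ⬝ᵥ wp L s r ε i < L.c ⬝ᵥ (nbV L s i).1 := h
      exact absurd h' (not_lt.mpr (hT.nb_lt_wp hi).le)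
    · rintro ⟨i, -, h⟩
      exact absurd h (Fin.castSucc_lt_last i).ne
  | cast l =>
    have hcast : (∃ a ∈ (tight L.A L.b s.1).filter (fun l => r l < r i),
        Fin.castSuccEmb a = l.castSucc) ↔ l ∈ (tight L.A L.b s.1).filter fun l => r l < r i := by
      constructor
      · rintro ⟨i', h, h'⟩
        have : i' = l := Fin.castSucc_injective n h'
        rwa [← this]
      · intro h
        exact ⟨l, h, rfl⟩
    rw [hcast, Finset.mem_filter]
    have ht : l.castSucc ∈ tight (hT.inst v₀ hv₀).A (hT.inst v₀ hv₀).b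
        (hT.newV v₀ hv₀ i hi).1 ↔ l ∈ (tight L.A L.b s.1).erase i := by
      show l.castSucc ∈ tight (tA L s r) (tb L s r ε) (wp L s r ε i) ↔ _
      rw [ttight_cast, hT.wp_tight hi]
    rw [ht, Finset.mem_erase]
    have hval : ∀ (hl : l ∈ tight L.A L.b s.1), (L.c ⬝ᵥ wp L s r ε i < L.c ⬝ᵥ wp L s r ε l ↔
        r l < r i) := by
      intro hl
      rw [hT.wp_c hi, hT.wp_c hl]
      have he := hT.eps
      constructor
      · intro h
        have h1 : ε * ((r l : ℝ) + 1) < ε * ((r i : ℝ) + 1) := by linarith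
        have h2 := lt_of_mul_lt_mul_left h1 he.le
        have h3 : (r l : ℝ) < r i := by linarith
        exact_mod_cast h3
      · intro h
        have h3 : (r l : ℝ) < r i := by exact_mod_cast h
        have h1 : ε * ((r l : ℝ) + 1) < ε * ((r i : ℝ) + 1) :=
          mul_lt_mul_of_pos_left (by linarith) he
        linarith
    constructor
    · rintro ⟨⟨hli, hl⟩, h⟩
      rw [hT.nb_new_cast v₀ hv₀ hi hl hli] at h
      exact ⟨hl, (hval hl).mp h⟩
    · rintro ⟨hl, h⟩
      have hli : l ≠ i := by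
        rintro rfl
        exact lt_irrefl _ h
      refine ⟨⟨hli, hl⟩, ?_⟩
      rw [hT.nb_new_cast v₀ hv₀ hi hl hli]
      exact (hval hl).mpr h

include hT in
lemma image_r : (tight L.A L.b s.1).image r = Finset.range d := by
  apply Finset.eq_of_subset_of_card_le
  · intro k hk
    rw [Finset.mem_image] at hk
    obtain ⟨i, hi, rfl⟩ := hk
    exact Finset.mem_range.mpr (hT.lt i hi)
  · rw [Finset.card_range, Finset.card_image_of_injOn hT.inj, L.simple _ s.2]

include hT in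
lemma image_r_lt {i : Fin n} (hi : i ∈ tight L.A L.b s.1) :
    ((tight L.A L.b s.1).filter fun l => r l < r i).image r = Finset.range (r i) := by
  ext k
  rw [Finset.mem_image, Finset.mem_range]
  constructor
  · rintro ⟨l, hl, rfl⟩
    exact (Finset.mem_filter.mp hl).2
  · intro hk
    have h1 : k ∈ Finset.range d := Finset.mem_range.mpr (hk.trans (hT.lt i hi))
    rw [← hT.image_r, Finset.mem_image] at h1
    obtain ⟨l, hl, rfl⟩ := h1
    exact ⟨l, Finset.mem_filter.mpr ⟨hl, hk⟩, rfl⟩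

include hT in
lemma sum_new {i : Fin n} (hi : i ∈ tight L.A L.b s.1) (f : ℕ → ℝ) :
    ∑ l ∈ (tight L.A L.b s.1).filter (fun l => r l < r i), f (r l) =
      ∑ k ∈ Finset.range (r i), f k := by
  rw [← hT.image_r_lt hi, Finset.sum_image]
  intro x hx y hy h
  exact hT.inj (Finset.mem_coe.mpr (Finset.mem_filter.mp (Finset.mem_coe.mp hx)).1)
    (Finset.mem_coe.mpr (Finset.mem_filter.mp (Finset.mem_coe.mp hy)).1) h

include hT in
lemma card_new_out {i : Fin n} (hi : i ∈ tight L.A L.b s.1) :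
    ((tight L.A L.b s.1).filter fun l => r l < r i).card = r i := by
  have h := hT.image_r_lt hi
  have h2 := congrArg Finset.card h
  rw [Finset.card_range, Finset.card_image_of_injOn] at h2
  · exact h2
  · intro x hx y hy h
    exact hT.inj (Finset.mem_coe.mpr (Finset.mem_filter.mp (Finset.mem_coe.mp hx)).1)
      (Finset.mem_coe.mpr (Finset.mem_filter.mp (Finset.mem_coe.mp hy)).1) h

open Classical in
/-- the subsolution -/
noncomputable def Fv (L : LPInstance d n) (s : Vert L) (r : Fin n → ℕ) (ε : ℝ)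
    (g : Vert L → ℝ) (x : Fin d → ℝ) : ℝ :=
  if h : ∃ v : Vert L, v ≠ s ∧ v.1 = x then g h.choose
  else if h' : ∃ i, i ∈ tight L.A L.b s.1 ∧ wp L s r ε i = x then hm (r h'.choose) else 0

lemma Fv_old (g : Vert L → ℝ) {v : Vert L} (hv : v ≠ s) : Fv L s r ε g v.1 = g v := by
  classical
  unfold Fv
  have h : ∃ w : Vert L, w ≠ s ∧ w.1 = v.1 := ⟨v, hv, rfl⟩
  rw [dif_pos h]
  exact congrArg g (Subtype.ext h.choose_spec.2)

include hT in
lemma Fv_new (g : Vert L → ℝ) {i : Fin n} (hi : i ∈ tight L.A L.b s.1) :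
    Fv L s r ε g (wp L s r ε i) = hm (r i) := by
  classical
  unfold Fv
  have h : ¬ ∃ w : Vert L, w ≠ s ∧ w.1 = wp L s r ε i := by
    rintro ⟨w, hw, h⟩
    exact hT.wp_ne_old hi hw h.symm
  rw [dif_neg h]
  have h' : ∃ j, j ∈ tight L.A L.b s.1 ∧ wp L s r ε j = wp L s r ε i := ⟨i, hi, rfl⟩
  rw [dif_pos h']
  have h2 : h'.choose = i := hT.wp_inj h'.choose_spec.1 hi h'.choose_spec.2
  rw [h2]

/-- The expected number of steps on the truncated instance is at least the value of the solution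
with the rewards of the new simplex. -/
theorem le_steps {g : Vert L → ℝ}
    (h2 : ∀ v, (outV L v).card * g v =
      ∑ i ∈ outV L v, ((1 + if nbV L v i = s then hm (r (ixV L v i)) else 0) + g (nbV L v i)))
    (h3 : ∀ v, 0 ≤ g v) (h0 : g s = 0) :
    ENNReal.ofReal (g v₀) ≤ (hT.inst v₀ hv₀).expectedSteps := by
  classical
  have hmain := le_expectedSteps_real (hT.inst v₀ hv₀) (fun x => Fv L s r ε g x.1) ?_ ?_ ?_
  · have h4 : Fv L s r ε g v₀.1 = g v₀ := Fv_old g hv₀
    have h5 : (hT.inst v₀ hv₀).v₀ = v₀.1 := rfl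
    simp only [h5, h4] at hmain
    exact hmain
  · intro x
    rcases hT.cases_vert v₀ hv₀ x with ⟨v, hv, rfl⟩ | ⟨i, hi, rfl⟩
    · show 0 ≤ Fv L s r ε g v.1
      rw [Fv_old g hv]
      exact h3 v
    · show 0 ≤ Fv L s r ε g (wp L s r ε i)
      rw [hT.Fv_new g hi]
      exact hm_nonneg _
  · intro x hx
    rcases hT.cases_vert v₀ hv₀ x with ⟨v, hv, rfl⟩ | ⟨i, hi, rfl⟩
    · exfalso
      rw [hT.out_old v₀ hv₀ hv, Finset.map_eq_empty] at hx
      exact (out_nonempty L hT.top hv).ne_empty hx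
    · show Fv L s r ε g (wp L s r ε i) = 0
      rw [hT.out_new v₀ hv₀ hi, Finset.map_eq_empty] at hx
      have h4 := hT.card_new_out hi
      rw [hx, Finset.card_empty] at h4
      rw [hT.Fv_new g hi, ← h4, hm_zero]
  · intro x
    rcases hT.cases_vert v₀ hv₀ x with ⟨v, hv, rfl⟩ | ⟨i, hi, rfl⟩
    · rw [hT.out_old v₀ hv₀ hv, Finset.card_map, Finset.sum_map]
      have h4 : Fv L s r ε g (hT.oldV v₀ hv₀ v hv).1 = g v := Fv_old g hv
      rw [h4, h2 v]
      have h5 : ((outV L v).card : ℝ) = ∑ _i ∈ outV L v, (1 : ℝ) := by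
        rw [Finset.sum_const, nsmul_eq_mul, mul_one]
      rw [h5, ← Finset.sum_add_distrib]
      refine Finset.sum_le_sum fun i hi => ?_
      have hi' := ((mem_outV L).mp hi).1
      by_cases hn : nbV L v i = s
      · have h6 : nbV (hT.inst v₀ hv₀) (hT.oldV v₀ hv₀ v hv) (Fin.castSuccEmb i) =
            hT.newV v₀ hv₀ (ixV L v i) (hT.nb_top hi' hn).1 := hT.nb_old_top v₀ hv₀ hv hi' hn
        rw [h6]
        have h7 : Fv L s r ε g (hT.newV v₀ hv₀ (ixV L v i) (hT.nb_top hi' hn).1).1 =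
          hm (r (ixV L v i)) := hT.Fv_new g (hT.nb_top hi' hn).1
        rw [h7, if_pos hn, hn, h0]
        linarith
      · have h6 : nbV (hT.inst v₀ hv₀) (hT.oldV v₀ hv₀ v hv) (Fin.castSuccEmb i) =
            hT.oldV v₀ hv₀ (nbV L v i) hn := hT.nb_old_ne v₀ hv₀ hv hi' hn
        rw [h6]
        have h7 : Fv L s r ε g (hT.oldV v₀ hv₀ (nbV L v i) hn).1 = g (nbV L v i) := Fv_old g hn
        rw [h7, if_neg hn]
        linarith
    · rw [hT.out_new v₀ hv₀ hi, Finset.card_map, Finset.sum_map, hT.card_new_out hi]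
      have h4 : Fv L s r ε g (hT.newV v₀ hv₀ i hi).1 = hm (r i) := hT.Fv_new g hi
      rw [h4, mul_hm, ← hT.sum_new hi]
      apply le_of_eq
      congr 1
      refine Finset.sum_congr rfl fun l hl => ?_
      rw [Finset.mem_filter] at hl
      have hli : l ≠ i := by
        rintro rfl
        exact lt_irrefl _ hl.2
      have h6 : nbV (hT.inst v₀ hv₀) (hT.newV v₀ hv₀ i hi) (Fin.castSuccEmb l) =
            hT.newV v₀ hv₀ l hl.1 := hT.nb_new_cast v₀ hv₀ hi hl.1 hli
      rw [h6]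
      exact (hT.Fv_new g hl.1).symm

/-- The number of vertices. -/
lemma card_le : Fintype.card (Vert (hT.inst v₀ hv₀)) ≤ Fintype.card (Vert L) + (d - 1) := by
  classical
  let Ψ : ((univ : Finset (Vert L)).erase s : Finset (Vert L)) ⊕
      (tight L.A L.b s.1 : Finset (Fin n)) → Vert (hT.inst v₀ hv₀) := fun x =>
    Sum.casesOn x (fun v => hT.oldV v₀ hv₀ v.1 (Finset.ne_of_mem_erase v.2))
      (fun i => hT.newV v₀ hv₀ i.1 i.2)
  have hsurj : Function.Surjective Ψ := by
    intro x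
    rcases hT.cases_vert v₀ hv₀ x with ⟨v, hv, rfl⟩ | ⟨i, hi, rfl⟩
    · exact ⟨Sum.inl ⟨v, Finset.mem_erase.mpr ⟨hv, Finset.mem_univ _⟩⟩, rfl⟩
    · exact ⟨Sum.inr ⟨i, hi⟩, rfl⟩
  have h1 := Fintype.card_le_of_surjective Ψ hsurj
  rw [Fintype.card_sum, Fintype.card_coe, Fintype.card_coe, L.simple _ s.2,
    Finset.card_erase_of_mem (Finset.mem_univ _), Finset.card_univ] at h1
  have h2 : 0 < Fintype.card (Vert L) := Fintype.card_pos_iff.mpr ⟨s⟩
  have h3 := hT.hd
  omega

end Tr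

end Pool.Agent.SharpV
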